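import Pool.Agent.Helper106.LG.Stmts

set_option autoImplicit false

/-! Assembly of the main result. -/

namespace Pool.Agent.Helper106.LG

open Equiv

/-- an element of a group with generating set `S` lies in a ball -/
lemma mem_ball_of_closure {Γ : Type} [Group Γ] {S : Set Γ} (h : Subgroup.closure S = ⊤) (g : Γ) :
    ∃ n, g ∈ ball S n := by
  have hg : g ∈ Subgroup.closure S := by rw [h]; trivial
  rw [← Subgroup.mem_toSubmonoid, Subgroup.closure_toSubmonoid] at hg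
  obtain ⟨l, hl, rfl⟩ := Submonoid.exists_list_of_mem_closure hg
  refine ⟨l.length, l, le_rfl, fun x hx => ?_, rfl⟩
  rcases hl x hx with h | h
  · exact Or.inl h
  · exact Or.inr h

lemma ball_mono {Γ : Type} [Group Γ] {S : Set Γ} {m n : ℕ} (h : m ≤ n) : ball S m ⊆ ball S n := by
  rintro g ⟨l, hl, h2, h3⟩
  exact ⟨l, hl.trans h, h2, h3⟩

lemma IsLocEmb.mono {Γ Q : Type} [Group Γ] [Group Q] {B B' : Set Γ} {π : Γ → Q}
    (h : IsLocEmb B' π) (hB : B ⊆ B') : IsLocEmb B π :=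
  ⟨fun g hg k hk hgk => h.1 g (hB hg) k (hB hk) (hB hgk), h.2.mono hB⟩

lemma isLEF_GP (hH : StH3) (hK : StK1) (P : Set ℤ) : IsLEF (GP P) := by
  intro B hB
  choose n hn using fun g : GP P => mem_ball_of_closure (hK P).2 g
  obtain ⟨N, hN⟩ : ∃ N, ∀ g ∈ B, n g ≤ N := by
    obtain ⟨N, hN⟩ := (hB.image n).bddAbove
    exact ⟨N, fun g hg => hN ⟨g, hg, rfl⟩⟩
  obtain ⟨Q, i1, i2, π, h1, -⟩ := hH P N _ le_rfl
  exact ⟨Q, i1, i2, π, h1.mono fun g hg => ball_mono (hN g hg) (hn g)⟩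

lemma not_dom_SP (hG : StG) (hH : StH3) (hJ1 : StJ1) (hJ2 : StJ2) (hJ3 : StJ3) (hK : StK1)
    {f g : ℕ → Bool} (hfg : f ≠ g) (C : ℕ) :
    ∃ n : ℕ, 1 ≤ n ∧ lefGrowth (SP (PF g)) (C * n) < lefGrowth (SP (PF f)) n := by
  obtain ⟨N, hN1, hN⟩ := hJ3 C
  obtain ⟨i, hi, hif, hig⟩ := hJ1 f g hfg N
  obtain ⟨h1, h2⟩ := hN i hi
  have hD : 0 < DD i := by unfold DD; positivity
  refine ⟨20 * DD i, by omega, ?_⟩
  -- the upper bound
  have hup : lefGrowth (SP (PF g)) (C * (20 * DD i)) < 2 ^ (DD i * DD i) := by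
    obtain ⟨Q, i1, i2, π, h3, h4⟩ := hH (PF g) (C * (20 * DD i)) (2 * DD (i - 1))
      (hJ2 g i _ (by omega) hig h1)
    refine lt_of_le_of_lt (Nat.sInf_le ⟨Q, i1, i2, π, rfl, h3⟩) (lt_of_le_of_lt h4 h2)
  refine lt_of_lt_of_le hup ?_
  -- the lower bound
  have hne : {k : ℕ | ∃ (Q : Type) (_ : Group Q) (_ : Finite Q) (π : GP (PF f) → Q),
      Nat.card Q = k ∧ IsLocEmb (ball (SP (PF f)) (20 * DD i)) π}.Nonempty := by
    obtain ⟨Q, i1, i2, π, h3, -⟩ := hH (PF f) (20 * DD i) _ le_rfl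
    exact ⟨_, Q, i1, i2, π, rfl, h3⟩
  obtain ⟨Q, i1, i2, π, h3, h4⟩ := Nat.sInf_mem hne
  rw [lefGrowth, ← h3]
  exact hG (PF f) (DD i) Q π hD (fun p hp1 hp2 => ⟨i, hif, hp1, hp2⟩) h4

theorem main (hG : StG) (hH : StH3) (hI : StI) (hJ1 : StJ1) (hJ2 : StJ2) (hJ3 : StJ3)
    (hK : StK1) : Main := by
  refine ⟨fun f => GP (PF f), fun f => inferInstance, fun f => ?_, fun f => isLEF_GP hH hK _, ?_⟩
  · obtain ⟨h1, h2⟩ := hK (PF f)
    exact ⟨⟨h1.toFinset, by simpa using h2⟩⟩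
  · intro f g hfg
    have hf := isLEF_GP hH hK (PF f)
    have hg := isLEF_GP hH hK (PF g)
    have key : ∀ c : ℕ, ¬ ∀ n : ℕ, 1 ≤ n →
        lefGrowth (SP (PF f)) n ≤ lefGrowth (SP (PF g)) (c * n) := by
      intro c h
      obtain ⟨n, h1, h2⟩ := not_dom_SP hG hH hJ1 hJ2 hJ3 hK hfg c
      exact absurd (h n h1) (not_le.2 h2)
    refine ⟨⟨fun e => ?_⟩, fun S T hS hS' hT hT' hdom => ?_⟩
    · obtain ⟨-, c, -, hc⟩ := hI _ _ e hf (SP (PF f)) (SP (PF g)) (hK _).1 (hK _).1 (hK _).2 (hK _).2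
      exact key c fun n _ => hc n
    · obtain ⟨C, hC, hCn⟩ := hdom
      obtain ⟨-, c, hc1, hc⟩ := hI _ _ (MulEquiv.refl _) hf (SP (PF f)) S (hK _).1 hS (hK _).2 hS'
      obtain ⟨-, c', hc1', hc'⟩ := hI _ _ (MulEquiv.refl _) hg T (SP (PF g)) hT (hK _).1 hT' (hK _).2
      obtain ⟨hmono, -⟩ := hI _ _ (MulEquiv.refl _) hg (SP (PF g)) (SP (PF g)) (hK _).1 (hK _).1
        (hK _).2 (hK _).2
      refine key (c' * ⌈C * c⌉₊) fun n hn => ?_
      refine (hc n).trans ((hCn (c * n) (Nat.mul_pos (by omega) (by omega))).trans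
        ((hc' _).trans (hmono _ _ ?_)))
      rw [mul_assoc]
      refine Nat.mul_le_mul_left _ ?_
      rw [Nat.ceil_le]
      push_cast
      rw [← mul_assoc]
      exact mul_le_mul_of_nonneg_right (Nat.le_ceil _) (by positivity)

end Pool.Agent.Helper106.LG
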