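import Pool.Agent.Helper106.LG.Stmts

set_option autoImplicit false

/-! Task C: two actions whose lamps agree satisfy the same short relations. -/

namespace Pool.Agent.Helper106.LG

open Equiv

namespace TaskC

variable {X X' : Type} [DecidableEq X] [DecidableEq X']

lemma lamp_apply (x : X) (f : F) (z : X × Fin 3) :
    lamp x f z = if z.1 = x then (z.1, f z.2) else z := rfl

/-- the product of the lamps of a list -/
def lp (L : List (X × F)) : Perm (X × Fin 3) := (L.map (fun z => lamp z.1 z.2)).prod

lemma lp_cons (z : X × F) (L : List (X × F)) : lp (z :: L) = lamp z.1 z.2 * lp L := by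
  simp [lp]

lemma lp_nil : lp ([] : List (X × F)) = 1 := by
  simp [lp]

/-- intertwining of the products of lamps -/
lemma lp_map_apply {ι : X' → X} (hι : Function.Injective ι) (L : List (X' × F)) (z : X' × Fin 3) :
    lp (L.map (fun z => (ι z.1, z.2))) (ι z.1, z.2) = (ι (lp L z).1, (lp L z).2) := by
  induction L with
  | nil => simp [lp_nil]
  | cons a L ih =>
    rw [List.map_cons, lp_cons, lp_cons, Perm.mul_apply, Perm.mul_apply, ih, lamp_apply,
      lamp_apply]
    by_cases h : (lp L z).1 = a.1
    · simp [h]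
    · have h' : ¬ ι (lp L z).1 = ι a.1 := fun h2 => h (hι h2)
      simp [h, h']

/-- the product of lamps fixes the points outside the image -/
lemma lp_map_of_notMem {ι : X' → X} (L : List (X' × F)) (z : X × Fin 3)
    (hz : z.1 ∉ Set.range ι) : lp (L.map (fun z => (ι z.1, z.2))) z = z := by
  induction L with
  | nil => simp [lp_nil]
  | cons a L ih =>
    rw [List.map_cons, lp_cons, Perm.mul_apply, ih, lamp_apply]
    have h : ¬ z.1 = ι a.1 := fun h => hz ⟨a.1, h.symm⟩
    simp [h]

lemma lp_map_eq_one_iff {ι : X' → X} (hι : Function.Injective ι) (L : List (X' × F)) :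
    lp (L.map (fun z => (ι z.1, z.2))) = 1 ↔ lp L = 1 := by
  constructor
  · intro h
    ext z : 1
    have h1 := lp_map_apply hι L z
    rw [h] at h1
    simp only [Perm.one_apply, Prod.mk.injEq] at h1
    rw [Perm.one_apply]
    exact Prod.ext (hι h1.1).symm h1.2.symm
  · intro h
    ext z : 1
    by_cases hz : z.1 ∈ Set.range ι
    · obtain ⟨x, hx⟩ := hz
      have h1 := lp_map_apply hι L (x, z.2)
      rw [h] at h1
      simp only [Perm.one_apply] at h1
      rw [Perm.one_apply]
      have : z = (ι x, z.2) := Prod.ext hx.symm rfl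
      rw [this]
      exact h1
    · rw [lp_map_of_notMem L z hz, Perm.one_apply]

lemma up_one : up (1 : Perm X) = 1 := by
  ext z : 1
  rfl

/-- a word has value one if and only if its free part is trivial and the product of its lamps is
trivial -/
lemma evW_eq_one_iff {M : Type} [Group M] (hB : StB) (p : Fin 2 → Perm X) (x₀ : X)
    (m : Fin 2 → M) (w : List Lt)
    (hm : FreeGroup.lift m (FreeGroup.mk (freeOf w)) = 1 →
      (FreeGroup.mk (freeOf w) : FreeGroup (Fin 2)) = 1) :
    evW p x₀ m w = 1 ↔ (FreeGroup.mk (freeOf w) : FreeGroup (Fin 2)) = 1 ∧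
      lp (lampsOf p x₀ w) = 1 := by
  obtain ⟨h1, h2, -⟩ := hB X M p x₀ m w
  rw [Prod.ext_iff, h1, h2, Prod.fst_one, Prod.snd_one]
  constructor
  · rintro ⟨h3, h4⟩
    have h5 := hm h4
    refine ⟨h5, ?_⟩
    rw [h5, map_one, up_one, mul_one] at h3
    exact h3
  · rintro ⟨h3, h4⟩
    rw [h3, map_one, map_one, up_one, mul_one]
    exact ⟨h4, rfl⟩

end TaskC

open TaskC in
theorem stC (hB : StB) : StC := by
  intro X X' M' _ _ _ p p' x₀ x₀' m' ι l hι hL hm w hw
  have hlen : (freeOf w).length ≤ l :=
    ((hB X (FreeGroup (Fin 2)) p x₀ FreeGroup.of w).2.2).trans hw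
  rw [evW_eq_one_iff hB p x₀ FreeGroup.of w (fun h => by
      rwa [FreeGroup.lift_of_eq_id, MonoidHom.id_apply] at h),
    evW_eq_one_iff hB p' x₀' m' w (hm _ hlen), ← hL w hw, lp_map_eq_one_iff hι]

end Pool.Agent.Helper106.LG
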