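import Pool.Agent.Helper106.LG.Stmts
import Pool.Agent.Helper460_OutF.Sanov

set_option autoImplicit false

/-! Task D: Sanov matrices modulo `3 ^ l + 2`. -/

namespace Pool.Agent.Helper106.LG

namespace TD

open scoped MatrixGroups
open Helper460_OutF

/-- the two integral matrices -/
def sI : Fin 2 → SL(2, ℤ) := ![saA, saB]

lemma gen_row (x : Fin 2 × Bool) (i : Fin 2) :
    ∑ k, |((cond x.2 (sI x.1) (sI x.1)⁻¹ : SL(2, ℤ)) : Matrix (Fin 2) (Fin 2) ℤ) i k| ≤ 3 := by
  obtain ⟨j, b⟩ := x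
  cases b
  · change ∑ k, |(((sI j)⁻¹ : SL(2, ℤ)) : Matrix (Fin 2) (Fin 2) ℤ) i k| ≤ 3
    rw [Matrix.SpecialLinearGroup.coe_inv, Matrix.adjugate_fin_two]
    fin_cases j <;> fin_cases i <;> simp [sI, saA, saB, Fin.sum_univ_two]
  · change ∑ k, |((sI j : SL(2, ℤ)) : Matrix (Fin 2) (Fin 2) ℤ) i k| ≤ 3
    fin_cases j <;> fin_cases i <;> simp [sI, saA, saB, Fin.sum_univ_two]

lemma row (L : List (Fin 2 × Bool)) (i : Fin 2) :
    ∑ k, |((L.map fun x => cond x.2 (sI x.1) (sI x.1)⁻¹).prod :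
      Matrix (Fin 2) (Fin 2) ℤ) i k| ≤ 3 ^ L.length := by
  induction L generalizing i with
  | nil => fin_cases i <;> simp [Fin.sum_univ_two]
  | cons x L ih =>
    have h := gen_row x i
    have h0 := ih 0
    have h1 := ih 1
    rw [List.map_cons, List.prod_cons, Matrix.SpecialLinearGroup.coe_mul, List.length_cons, pow_succ]
    set A : Matrix (Fin 2) (Fin 2) ℤ := ((cond x.2 (sI x.1) (sI x.1)⁻¹ : SL(2, ℤ)) :
      Matrix (Fin 2) (Fin 2) ℤ) with hA
    set P : Matrix (Fin 2) (Fin 2) ℤ := (((L.map fun x => cond x.2 (sI x.1) (sI x.1)⁻¹).prod :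
      SL(2, ℤ)) : Matrix (Fin 2) (Fin 2) ℤ) with hP
    simp only [Fin.sum_univ_two, Matrix.mul_apply] at h h0 h1 ⊢
    have e0 : |A i 0 * P 0 0 + A i 1 * P 1 0| ≤ |A i 0| * |P 0 0| + |A i 1| * |P 1 0| := by
      rw [← abs_mul, ← abs_mul]; exact abs_add_le _ _
    have e1 : |A i 0 * P 0 1 + A i 1 * P 1 1| ≤ |A i 0| * |P 0 1| + |A i 1| * |P 1 1| := by
      rw [← abs_mul, ← abs_mul]; exact abs_add_le _ _
    have a0 := abs_nonneg (A i 0)
    have a1 := abs_nonneg (A i 1)
    have m0 := mul_le_mul_of_nonneg_left h0 a0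
    have m1 := mul_le_mul_of_nonneg_left h1 a1
    have m2 : (3 : ℤ) ^ L.length * (|A i 0| + |A i 1|) ≤ 3 ^ L.length * 3 :=
      mul_le_mul_of_nonneg_left h (by positivity)
    nlinarith

lemma map_lift (l : ℕ) (g : FreeGroup (Fin 2)) :
    FreeGroup.lift (mS l) g =
      Matrix.SpecialLinearGroup.map (Int.castRingHom (ZMod (3 ^ l + 2))) (FreeGroup.lift sI g) := by
  have : FreeGroup.lift (mS l) =
      (Matrix.SpecialLinearGroup.map (Int.castRingHom (ZMod (3 ^ l + 2)))).comp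
        (FreeGroup.lift sI) := by
    ext j a b
    rw [MonoidHom.comp_apply, FreeGroup.lift_apply_of, FreeGroup.lift_apply_of,
      Matrix.SpecialLinearGroup.map_apply_coe]
    fin_cases j <;> fin_cases a <;> fin_cases b <;>
      simp [mS, sI, saA, saB]
  rw [this]
  rfl

end TD

open TD Helper460_OutF in
theorem stD1 : StD1 := by
  intro l v hv h
  rw [map_lift] at h
  have hs : FreeGroup.lift sI (FreeGroup.mk v) = 1 := by
    have hr := fun i => row v i
    have hm : FreeGroup.lift sI (FreeGroup.mk v) =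
        (v.map fun x => cond x.2 (sI x.1) (sI x.1)⁻¹).prod := FreeGroup.lift_mk
    rw [hm] at h ⊢
    set P := (v.map fun x => cond x.2 (sI x.1) (sI x.1)⁻¹).prod with hP
    have hb : ∀ i j, |(P : Matrix (Fin 2) (Fin 2) ℤ) i j| ≤ 3 ^ l := by
      intro i j
      refine le_trans (Finset.single_le_sum (f := fun k => |(P : Matrix (Fin 2) (Fin 2) ℤ) i k|)
        (fun k _ => abs_nonneg _) (Finset.mem_univ j)) ((hr i).trans ?_)
      exact pow_le_pow_right₀ (by norm_num) hv
    ext i j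
    have h1 : ((P i j : ℤ) : ZMod (3 ^ l + 2)) = ((1 : Matrix (Fin 2) (Fin 2) ℤ) i j : ℤ) := by
      have h2 := congrArg (fun A : Matrix.SpecialLinearGroup (Fin 2) (ZMod (3 ^ l + 2)) => A i j) h
      simp only [Matrix.SpecialLinearGroup.map_apply_coe, RingHom.mapMatrix_apply,
        Matrix.map_apply, Matrix.SpecialLinearGroup.coe_one] at h2
      rw [show ((P i j : ℤ) : ZMod (3 ^ l + 2)) = (Int.castRingHom (ZMod (3 ^ l + 2))) (P i j)
        from rfl, h2]
      by_cases hij : i = j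
      · subst hij; simp
      · simp [hij]
    have h3 : ((3 ^ l + 2 : ℕ) : ℤ) ∣ P i j - (1 : Matrix (Fin 2) (Fin 2) ℤ) i j := by
      rw [← ZMod.intCast_eq_intCast_iff_dvd_sub]
      exact h1.symm
    have h4 : |P i j - (1 : Matrix (Fin 2) (Fin 2) ℤ) i j| < ((3 ^ l + 2 : ℕ) : ℤ) := by
      have h5 := hb i j
      have h6 : |(1 : Matrix (Fin 2) (Fin 2) ℤ) i j| ≤ 1 := by
        by_cases hij : i = j
        · subst hij; simp
        · simp [hij]
      have h7 := abs_sub (P i j) ((1 : Matrix (Fin 2) (Fin 2) ℤ) i j)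
      push_cast
      linarith
    have h8 := Int.eq_zero_of_abs_lt_dvd h3 h4
    rw [Matrix.SpecialLinearGroup.coe_one]
    linarith
  have h9 : sanov (FreeGroup.mk v) = sanov 1 := by
    rw [map_one]
    exact hs
  exact sanov_injective h9

theorem stD2 : StD2 := by
  intro l
  have : NeZero (3 ^ l + 2) := ⟨by positivity⟩
  have : Finite (Matrix (Fin 2) (Fin 2) (ZMod (3 ^ l + 2))) := by
    unfold Matrix; infer_instance
  have hinj : Function.Injective
      (fun A : Matrix.SpecialLinearGroup (Fin 2) (ZMod (3 ^ l + 2)) =>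
        (A : Matrix (Fin 2) (Fin 2) (ZMod (3 ^ l + 2)))) := fun A B h => Subtype.ext h
  refine ⟨Finite.of_injective _ hinj, ?_⟩
  refine (Nat.card_le_card_of_injective _ hinj).trans ?_
  have : Nat.card (Matrix (Fin 2) (Fin 2) (ZMod (3 ^ l + 2))) = (3 ^ l + 2) ^ 4 := by
    unfold Matrix
    rw [Nat.card_fun, Nat.card_fun, Nat.card_zmod]
    simp [← pow_mul]
  rw [this]

end Pool.Agent.Helper106.LG
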