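import Mathlib

set_option autoImplicit false

/-! Definitions for LEF growth and the permutational wreath products `S₃ ≀ F₂` over comb-shaped
Schreier graphs. -/

namespace Pool.Agent.Helper106.LG

open Equiv

/-! ### LEF growth -/

/-- `π` restricted to `B` is an injective partial homomorphism. -/
def IsLocEmb {Γ Q : Type} [Group Γ] [Group Q] (B : Set Γ) (π : Γ → Q) : Prop :=
  (∀ g ∈ B, ∀ h ∈ B, g * h ∈ B → π (g * h) = π g * π h) ∧ Set.InjOn π B

/-- every finite subset has a local embedding into a finite group -/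
def IsLEF (Γ : Type) [Group Γ] : Prop :=
  ∀ B : Set Γ, B.Finite → ∃ (Q : Type) (_ : Group Q) (_ : Finite Q) (π : Γ → Q), IsLocEmb B π

/-- the closed ball of radius `n` about the identity in the word metric of `S` -/
def ball {Γ : Type} [Group Γ] (S : Set Γ) (n : ℕ) : Set Γ :=
  {g | ∃ l : List Γ, l.length ≤ n ∧ (∀ x ∈ l, x ∈ S ∨ x⁻¹ ∈ S) ∧ l.prod = g}

/-- the LEF growth function of `Γ` with respect to `S` -/
noncomputable def lefGrowth {Γ : Type} [Group Γ] (S : Set Γ) (n : ℕ) : ℕ :=
  sInf {k : ℕ | ∃ (Q : Type) (_ : Group Q) (_ : Finite Q) (π : Γ → Q),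
    Nat.card Q = k ∧ IsLocEmb (ball S n) π}

/-- `f₁ ⪯ f₂`, in a weak form: there is `C > 0` with `f₁ n ≤ f₂ ⌈C n⌉` for all integers `n ≥ 1`. It is
implied by: there is `C > 0` with `f₁ x ≤ f₂ (C x)` for all real `x > 0`, where functions on the positive
integers are extended to the positive reals by `f x = f ⌈x⌉`. -/
def Dom (f₁ f₂ : ℕ → ℕ) : Prop :=
  ∃ C : ℝ, 0 < C ∧ ∀ n : ℕ, 1 ≤ n → f₁ n ≤ f₂ ⌈C * n⌉₊

/-! ### Lamps -/

/-- the lamp group, the symmetric group on three letters -/
abbrev F : Type := Perm (Fin 3)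

/-- letters: `inl (j, true)` and `inl (j, false)` are the `j`-th generator of the free group of rank two
and its inverse, `inr f` is the lamp `f` at the base point -/
abbrev Lt : Type := (Fin 2 × Bool) ⊕ F

/-- the inverse letter -/
def invL : Lt → Lt
  | .inl (j, b) => .inl (j, !b)
  | .inr f => .inr f⁻¹

/-- `q` or its inverse -/
def mv {G : Type} [Group G] (b : Bool) (q : G) : G := if b then q else q⁻¹

section
variable {X : Type} [DecidableEq X]

/-- the lamp `f` at the point `x` -/
def lamp (x : X) (f : F) : Perm (X × Fin 3) where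
  toFun z := if z.1 = x then (z.1, f z.2) else z
  invFun z := if z.1 = x then (z.1, f⁻¹ z.2) else z
  left_inv z := by
    obtain ⟨a, i⟩ := z
    by_cases h : a = x <;> simp [h]
  right_inv z := by
    obtain ⟨a, i⟩ := z
    by_cases h : a = x <;> simp [h]

/-- a permutation of `X` acting on `X × Fin 3` -/
def up (q : Perm X) : Perm (X × Fin 3) := q.prodCongr (Equiv.refl _)

/-- the letters as permutations of `X × Fin 3` -/
def evP (p : Fin 2 → Perm X) (x₀ : X) : Lt → Perm (X × Fin 3)
  | .inl (j, b) => mv b (up (p j))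
  | .inr f => lamp x₀ f

/-- the letters in a second group `M` -/
def evM {M : Type} [Group M] (m : Fin 2 → M) : Lt → M
  | .inl (j, b) => mv b (m j)
  | .inr _ => 1

/-- the letters as elements of the product -/
def gen {M : Type} [Group M] (p : Fin 2 → Perm X) (x₀ : X) (m : Fin 2 → M) (a : Lt) :
    Perm (X × Fin 3) × M :=
  (evP p x₀ a, evM m a)

/-- the element given by a word -/
def evW {M : Type} [Group M] (p : Fin 2 → Perm X) (x₀ : X) (m : Fin 2 → M) (w : List Lt) :
    Perm (X × Fin 3) × M :=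
  (w.map (gen p x₀ m)).prod

/-- the lamps of a word: it equals the product of these lamps times its free part -/
def lampsOf (p : Fin 2 → Perm X) (x₀ : X) : List Lt → List (X × F)
  | [] => []
  | .inl (j, b) :: w => (lampsOf p x₀ w).map (fun z => (mv b (p j) z.1, z.2))
  | .inr f :: w => (x₀, f) :: lampsOf p x₀ w

end

/-- the free part of a word -/
def freeOf : List Lt → List (Fin 2 × Bool)
  | [] => []
  | .inl a :: w => a :: freeOf w
  | .inr _ :: w => freeOf w

/-! ### The comb -/

/-- the first generator: it shifts the row `0` -/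
def sPerm : Perm (ℤ × ℤ) where
  toFun z := if z.2 = 0 then (z.1 + 1, z.2) else z
  invFun z := if z.2 = 0 then (z.1 - 1, z.2) else z
  left_inv z := by
    by_cases h : z.2 = 0 <;> simp [h, Prod.ext_iff]
  right_inv z := by
    by_cases h : z.2 = 0 <;> simp [h, Prod.ext_iff]

open Classical in
/-- the second generator: it shifts the columns with first coordinate in `P` -/
noncomputable def tPerm (P : Set ℤ) : Perm (ℤ × ℤ) where
  toFun z := if z.1 ∈ P then (z.1, z.2 + 1) else z
  invFun z := if z.1 ∈ P then (z.1, z.2 - 1) else z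
  left_inv z := by
    by_cases h : z.1 ∈ P <;> simp [h]
  right_inv z := by
    by_cases h : z.1 ∈ P <;> simp [h]

/-- the two permutations -/
noncomputable def pp (P : Set ℤ) : Fin 2 → Perm (ℤ × ℤ) := ![sPerm, tPerm P]

/-- the letters as elements of the group below -/
noncomputable def gP (P : Set ℤ) (a : Lt) : Perm ((ℤ × ℤ) × Fin 3) × FreeGroup (Fin 2) :=
  gen (pp P) (0, 0) FreeGroup.of a

/-- the group: generated by all letters -/
noncomputable def GP (P : Set ℤ) : Subgroup (Perm ((ℤ × ℤ) × Fin 3) × FreeGroup (Fin 2)) :=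
  Subgroup.closure (Set.range (gP P))

/-- the standard generating set of `GP P` -/
def SP (P : Set ℤ) : Set (GP P) := {x | ∃ a : Lt, (x : Perm ((ℤ × ℤ) × Fin 3) × FreeGroup (Fin 2)) = gP P a}

/-- the points of the comb in the box of size `l` -/
def RR (P : Set ℤ) (l : ℕ) : Set (ℤ × ℤ) :=
  {z | |z.1| ≤ l ∧ |z.2| ≤ l ∧ (z.2 = 0 ∨ z.1 ∈ P)}

/-- the Sanov matrices modulo `3 ^ l + 2` -/
def mS (l : ℕ) : Fin 2 → Matrix.SpecialLinearGroup (Fin 2) (ZMod (3 ^ l + 2)) :=
  ![⟨!![1, 2; 0, 1], by simp [Matrix.det_fin_two]⟩, ⟨!![1, 0; 2, 1], by simp [Matrix.det_fin_two]⟩]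

/-! ### The scales -/

/-- the scales -/
def DD (i : ℕ) : ℕ := 2 ^ 4 ^ i

/-- the codes of the initial segments of `f` -/
def AA (f : ℕ → Bool) : Set ℕ := {k | ∃ n : ℕ, k = Encodable.encode ((List.range n).map f)}

/-- the columns of the comb of `f` -/
def PF (f : ℕ → Bool) : Set ℤ := {p | ∃ i ∈ AA f, (DD i : ℤ) ≤ p ∧ p < 2 * DD i}

end Pool.Agent.Helper106.LG
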