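import Pool.Agent.Helper106.LG.Stmts

set_option autoImplicit false

/-! Task F: independent pairs of noncommuting elements force the target to be large. -/

namespace Pool.Agent.Helper106.LG

namespace TF

theorem ball_mul {Γ : Type} [Group Γ] (S : Set Γ) (n : ℕ) {x y : Γ} (hx : x ∈ ball S n)
    (hy : y ∈ ball S n) : x * y ∈ ball S (2 * n) := by
  obtain ⟨l, hl, hlS, rfl⟩ := hx
  obtain ⟨m, hm, hmS, rfl⟩ := hy
  refine ⟨l ++ m, ?_, ?_, ?_⟩
  · rw [List.length_append]; omega
  · intro z hz
    rcases List.mem_append.1 hz with h | h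
    · exact hlS z h
    · exact hmS z h
  · rw [List.prod_append]

theorem ball_le {Γ : Type} [Group Γ] (S : Set Γ) (n : ℕ) {x : Γ} (hx : x ∈ ball S n) :
    x ∈ ball S (2 * n) := by
  obtain ⟨l, hl, hlS, rfl⟩ := hx
  exact ⟨l, by omega, hlS, rfl⟩

/-- the abstract counting argument -/
theorem count {Q ι : Type} [Group Q] [Finite Q] [Fintype ι] (A B : ι → Q)
    (hA : ∀ i j, i ≠ j → Commute (A i) (A j)) (hAB : ∀ i j, i ≠ j → Commute (A i) (B j))
    (hne : ∀ i, ¬ Commute (A i) (B i)) : 2 ^ Fintype.card ι ≤ Nat.card Q := by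
  classical
  have hpair : ∀ T : Finset ι, (T : Set ι).Pairwise (Function.onFun Commute A) :=
    fun T i _ j _ hij => hA i j hij
  let P : Finset ι → Q := fun T => T.noncommProd A (hpair T)
  have hcomm : ∀ (T : Finset ι) (j : ι), j ∉ T → Commute (B j) (P T) := by
    intro T j hj
    refine Finset.noncommProd_commute T A (hpair T) (B j) ?_
    intro i hi
    have hij : i ≠ j := by
      rintro rfl
      exact hj hi
    exact (hAB i j hij).symm
  have hncomm : ∀ (T : Finset ι) (j : ι), j ∈ T → ¬ Commute (B j) (P T) := by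
    intro T j hj hc
    have h1 : P T = A j * P (T.erase j) := by
      have h := Finset.mul_noncommProd_erase T hj A (hpair T)
        (fun i _ k _ hik => hA i k hik)
      exact h.symm
    have h2 : Commute (B j) (P (T.erase j)) := hcomm _ _ (Finset.notMem_erase j T)
    have h3 : A j = P T * (P (T.erase j))⁻¹ := by
      rw [h1, mul_assoc, mul_inv_cancel, mul_one]
    apply hne j
    rw [h3]
    exact (hc.mul_right h2.inv_right).symm
  have hinj : Function.Injective P := by
    intro T U hTU
    ext j
    constructor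
    · intro hj
      by_contra hU
      exact hncomm T j hj (hTU ▸ hcomm U j hU)
    · intro hj
      by_contra hT
      exact hncomm U j hj (hTU ▸ hcomm T j hT)
  have h := Nat.card_le_card_of_injective P hinj
  rwa [Nat.card_eq_fintype_card, Fintype.card_finset] at h

end TF

theorem stF : StF := by
  intro Γ Q ι _ _ _ _ S n a b π ha hb haa hab hne hπ
  obtain ⟨hmul, hinj⟩ := hπ
  have hm : ∀ x ∈ ball S n, ∀ y ∈ ball S n, π (x * y) = π x * π y := fun x hx y hy =>
    hmul x (TF.ball_le S n hx) y (TF.ball_le S n hy) (TF.ball_mul S n hx hy)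
  refine TF.count (fun i => π (a i)) (fun i => π (b i)) ?_ ?_ ?_
  · intro i j hij
    show π (a i) * π (a j) = π (a j) * π (a i)
    rw [← hm _ (ha i) _ (ha j), ← hm _ (ha j) _ (ha i), haa i j hij]
  · intro i j hij
    show π (a i) * π (b j) = π (b j) * π (a i)
    rw [← hm _ (ha i) _ (hb j), ← hm _ (hb j) _ (ha i), hab i j hij]
  · intro i hc
    have hc' : π (a i) * π (b i) = π (b i) * π (a i) := hc
    rw [← hm _ (ha i) _ (hb i), ← hm _ (hb i) _ (ha i)] at hc'
    exact hne i (hinj (TF.ball_mul S n (ha i) (hb i)) (TF.ball_mul S n (hb i) (ha i)) hc')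

end Pool.Agent.Helper106.LG
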