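import Pool.Agent.Helper106.LG.Asm

set_option autoImplicit false
set_option linter.unusedSectionVars false

/-! Task G: the lower bound. -/

namespace Pool.Agent.Helper106.LG

open Equiv

namespace TG

section ballLemmas

variable {Γ : Type} [Group Γ] {S : Set Γ}

lemma ball_mul {m n : ℕ} {g h : Γ} (hg : g ∈ ball S m) (hh : h ∈ ball S n) :
    g * h ∈ ball S (m + n) := by
  obtain ⟨l, h1, h2, h3⟩ := hg
  obtain ⟨l', h1', h2', h3'⟩ := hh
  refine ⟨l ++ l', by rw [List.length_append]; omega, ?_, by rw [List.prod_append, h3, h3']⟩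
  intro x hx
  rcases List.mem_append.1 hx with hx | hx
  · exact h2 x hx
  · exact h2' x hx

lemma ball_inv {n : ℕ} {g : Γ} (hg : g ∈ ball S n) : g⁻¹ ∈ ball S n := by
  obtain ⟨l, h1, h2, h3⟩ := hg
  refine ⟨(l.map fun x => x⁻¹).reverse, by simpa using h1, ?_, ?_⟩
  · intro x hx
    rw [List.mem_reverse, List.mem_map] at hx
    obtain ⟨y, hy, rfl⟩ := hx
    rw [inv_inv]
    exact (h2 y hy).symm
  · rw [← List.prod_inv_reverse, h3]

lemma ball_gen {g : Γ} (hg : g ∈ S) : g ∈ ball S 1 :=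
  ⟨[g], le_rfl, fun x hx => Or.inl (by rw [List.mem_singleton] at hx; rw [hx]; exact hg), by simp⟩

lemma ball_pow {g : Γ} (hg : g ∈ S) (k : ℕ) : g ^ k ∈ ball S k := by
  induction k with
  | zero => exact ⟨[], le_rfl, by simp, by simp⟩
  | succ k ih =>
    rw [pow_succ]
    exact ball_mul ih (ball_gen hg)

end ballLemmas

section lamps

variable {X : Type} [DecidableEq X]

lemma lamp_apply (x : X) (f : F) (z : X × Fin 3) :
    lamp x f z = if z.1 = x then (z.1, f z.2) else z := rfl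

lemma up_apply (q : Perm X) (z : X × Fin 3) : up q z = (q z.1, z.2) := rfl

lemma up_mul (q q' : Perm X) : up (q * q') = up q * up q' := by
  ext z <;> rfl

lemma up_one : up (1 : Perm X) = 1 := by
  ext z <;> rfl

lemma up_pow (q : Perm X) (k : ℕ) : up (q ^ k) = up q ^ k := by
  induction k with
  | zero => rw [pow_zero, pow_zero, up_one]
  | succ k ih => rw [pow_succ, pow_succ, up_mul, ih]

lemma up_conj (q : Perm X) (x : X) (f : F) : up q * lamp x f * (up q)⁻¹ = lamp (q x) f := by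
  rw [mul_inv_eq_iff_eq_mul]
  apply Equiv.ext
  intro z
  rw [Perm.mul_apply, Perm.mul_apply, up_apply, up_apply, lamp_apply, lamp_apply]
  by_cases h : z.1 = x
  · rw [if_pos h, if_pos (by rw [h])]
  · rw [if_neg h, if_neg (fun h' => h (q.injective h'))]

lemma lamp_mul (x : X) (f g : F) : lamp x (f * g) = lamp x f * lamp x g := by
  apply Equiv.ext
  intro z
  rw [Perm.mul_apply, lamp_apply, lamp_apply, lamp_apply]
  by_cases h : z.1 = x
  · simp [h]
  · simp [h]

lemma lamp_comm {x y : X} (h : x ≠ y) (f g : F) : lamp x f * lamp y g = lamp y g * lamp x f := by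
  apply Equiv.ext
  intro z
  rw [Perm.mul_apply, Perm.mul_apply, lamp_apply, lamp_apply, lamp_apply, lamp_apply]
  by_cases h1 : z.1 = x
  · have h2 : z.1 ≠ y := fun h' => h (h1.symm.trans h')
    simp [h1, h]
  · by_cases h2 : z.1 = y
    · simp [h2, Ne.symm h]
    · simp [h1, h2]

lemma lamp_inj (x : X) {f g : F} (h : lamp x f = lamp x g) : f = g := by
  apply Equiv.ext
  intro i
  have h1 := congrArg (fun p : Perm (X × Fin 3) => (p (x, i)).2) h
  simpa [lamp_apply] using h1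

end lamps

lemma s_pow (k : ℕ) : (sPerm ^ k) (0, 0) = ((k : ℤ), 0) := by
  induction k with
  | zero => rfl
  | succ k ih =>
    rw [pow_succ', Perm.mul_apply, ih]
    simp [sPerm]

lemma t_pow {P : Set ℤ} {p : ℤ} (hp : p ∈ P) (k : ℕ) : (tPerm P ^ k) (p, 0) = (p, (k : ℤ)) := by
  induction k with
  | zero => rfl
  | succ k ih =>
    rw [pow_succ', Perm.mul_apply, ih]
    simp [tPerm, hp]

/-- generators of `GP P` -/
noncomputable def ge (P : Set ℤ) (a : Lt) : GP P := ⟨gP P a, Subgroup.subset_closure ⟨a, rfl⟩⟩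

lemma ge_mem (P : Set ℤ) (a : Lt) : ge P a ∈ SP P := ⟨a, rfl⟩

/-- a word moving the base point to `(p, y)` -/
noncomputable def uu (P : Set ℤ) (p y : ℕ) : GP P := ge P (.inl (1, true)) ^ y * ge P (.inl (0, true)) ^ p

/-- the lamp `f` at `(p, y)` -/
noncomputable def ll (P : Set ℤ) (f : F) (p y : ℕ) : GP P :=
  uu P p y * ge P (.inr f) * (uu P p y)⁻¹

lemma ll_mem (P : Set ℤ) (f : F) (p y : ℕ) : ll P f p y ∈ ball (SP P) (y + p + 1 + (y + p)) := by
  have h1 : uu P p y ∈ ball (SP P) (y + p) := ball_mul (ball_pow (ge_mem P _) y) (ball_pow (ge_mem P _) p)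
  exact ball_mul (ball_mul h1 (ball_gen (ge_mem P _))) (ball_inv h1)

lemma uu_fst (P : Set ℤ) (p y : ℕ) :
    (uu P p y : Perm ((ℤ × ℤ) × Fin 3) × FreeGroup (Fin 2)).1 = up (tPerm P ^ y * sPerm ^ p) := by
  rw [up_mul, up_pow, up_pow]
  rfl

lemma ll_val (P : Set ℤ) (f : F) (p y : ℕ) (hp : (p : ℤ) ∈ P) :
    (ll P f p y : Perm ((ℤ × ℤ) × Fin 3) × FreeGroup (Fin 2)) = (lamp ((p : ℤ), (y : ℤ)) f, 1) := by
  refine Prod.ext ?_ ?_
  · have h1 : (ll P f p y : Perm ((ℤ × ℤ) × Fin 3) × FreeGroup (Fin 2)).1 =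
        up (tPerm P ^ y * sPerm ^ p) * lamp (0, 0) f * (up (tPerm P ^ y * sPerm ^ p))⁻¹ := by
      rw [← uu_fst]
      rfl
    rw [h1, up_conj, Perm.mul_apply, s_pow, t_pow hp]
  · have h1 : (ll P f p y : Perm ((ℤ × ℤ) × Fin 3) × FreeGroup (Fin 2)).2 =
        (uu P p y : Perm ((ℤ × ℤ) × Fin 3) × FreeGroup (Fin 2)).2 * 1 *
        ((uu P p y : Perm ((ℤ × ℤ) × Fin 3) × FreeGroup (Fin 2)).2)⁻¹ := rfl
    rw [h1, mul_one, mul_inv_cancel]

lemma ncomm : (swap 0 1 : F) * swap 1 2 ≠ swap 1 2 * swap 0 1 := by decide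

end TG

open TG in
theorem stG (hF : StF) : StG := by
  intro P D Q _ _ π hD hP hπ
  have hp : ∀ i : Fin D, ((D + i : ℕ) : ℤ) ∈ P := by
    intro i
    have hi := i.2
    exact hP _ (by push_cast; omega) (by push_cast; omega)
  set a : Fin D × Fin D → GP P := fun z => ll P (swap 0 1) (D + z.1) z.2 with ha
  set b : Fin D × Fin D → GP P := fun z => ll P (swap 1 2) (D + z.1) z.2 with hb
  have hne : ∀ i j : Fin D × Fin D, i ≠ j →
      (((D + i.1 : ℕ) : ℤ), ((i.2 : ℕ) : ℤ)) ≠ (((D + j.1 : ℕ) : ℤ), ((j.2 : ℕ) : ℤ)) := by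
    intro i j hij h
    apply hij
    rw [Prod.mk.injEq] at h
    obtain ⟨h1, h2⟩ := h
    refine Prod.ext (Fin.ext ?_) (Fin.ext ?_) <;> omega
  have hmem : ∀ (f : F) (z : Fin D × Fin D), ll P f (D + z.1) z.2 ∈ ball (SP P) (10 * D) := by
    intro f z
    refine ball_mono ?_ (ll_mem P f (D + z.1) z.2)
    have h1 := z.1.2
    have h2 := z.2.2
    omega
  have h20 : 20 * D = 2 * (10 * D) := by ring
  rw [h20] at hπ
  have h := hF (GP P) Q (Fin D × Fin D) (SP P) (10 * D) a b π (hmem _) (hmem _) ?_ ?_ ?_ hπ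
  · simpa using h
  · intro i j hij
    apply Subtype.ext
    rw [Subgroup.coe_mul, Subgroup.coe_mul, ha]
    simp only
    rw [ll_val P _ _ _ (hp i.1), ll_val P _ _ _ (hp j.1), Prod.mk_mul_mk, Prod.mk_mul_mk,
      lamp_comm (hne i j hij)]
  · intro i j hij
    apply Subtype.ext
    rw [Subgroup.coe_mul, Subgroup.coe_mul, ha, hb]
    simp only
    rw [ll_val P _ _ _ (hp i.1), ll_val P _ _ _ (hp j.1), Prod.mk_mul_mk, Prod.mk_mul_mk,
      lamp_comm (hne i j hij)]
  · intro i hi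
    have h1 := congrArg (fun x : GP P => (x : Perm ((ℤ × ℤ) × Fin 3) × FreeGroup (Fin 2)).1) hi
    simp only [Subgroup.coe_mul, ha, hb] at h1
    rw [ll_val P _ _ _ (hp i.1), ll_val P _ _ _ (hp i.1), Prod.mk_mul_mk, Prod.mk_mul_mk] at h1
    simp only at h1
    rw [← lamp_mul, ← lamp_mul] at h1
    exact ncomm (lamp_inj _ h1)

end Pool.Agent.Helper106.LG
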