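import Pool.Agent.Helper106.LG.Stmts

set_option autoImplicit false

/-! Task H1: the lamps of short words are the same for the comb and for a finite box. -/

namespace Pool.Agent.Helper106.LG

open Equiv

namespace TH1

theorem mono (P : Set ℤ) {m l : ℕ} (h : m ≤ l) {z : ℤ × ℤ} (hz : z ∈ RR P m) : z ∈ RR P l := by
  obtain ⟨h1, h2, h3⟩ := hz
  have : (m : ℤ) ≤ l := by exact_mod_cast h
  exact ⟨by omega, by omega, h3⟩

theorem t_pos (P : Set ℤ) (x y : ℤ) (h : x ∈ P) : tPerm P (x, y) = (x, y + 1) := by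
  show (@ite _ _ (Classical.propDecidable _) _ _) = _
  exact if_pos h

theorem t_neg (P : Set ℤ) (x y : ℤ) (h : x ∉ P) : tPerm P (x, y) = (x, y) := by
  show (@ite _ _ (Classical.propDecidable _) _ _) = _
  exact if_neg h

theorem ts_pos (P : Set ℤ) (x y : ℤ) (h : x ∈ P) : (tPerm P).symm (x, y) = (x, y - 1) := by
  show (@ite _ _ (Classical.propDecidable _) _ _) = _
  exact if_pos h

theorem ts_neg (P : Set ℤ) (x y : ℤ) (h : x ∉ P) : (tPerm P).symm (x, y) = (x, y) := by
  show (@ite _ _ (Classical.propDecidable _) _ _) = _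
  exact if_neg h

theorem step (P : Set ℤ) (m : ℕ) (j : Fin 2) (b : Bool) (z : ℤ × ℤ) (hz : z ∈ RR P m) :
    mv b (pp P j) z ∈ RR P (m + 1) := by
  obtain ⟨x, y⟩ := z
  obtain ⟨h1, h2, h3⟩ := hz
  simp only at h1 h2 h3
  rw [abs_le] at h1 h2
  have hcast : ((m + 1 : ℕ) : ℤ) = (m : ℤ) + 1 := by push_cast; rfl
  fin_cases j
  · cases b
    · show (sPerm.symm (x, y)) ∈ RR P (m + 1)
      show (if (x, y).2 = 0 then ((x, y).1 - 1, (x, y).2) else (x, y)) ∈ RR P (m + 1)
      simp only
      split_ifs with h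
      · refine ⟨?_, ?_, Or.inl h⟩
        · show |x - 1| ≤ _
          rw [hcast, abs_le]; constructor <;> omega
        · show |y| ≤ _
          rw [hcast, abs_le]; constructor <;> omega
      · refine ⟨?_, ?_, h3⟩
        · show |x| ≤ _
          rw [hcast, abs_le]; constructor <;> omega
        · show |y| ≤ _
          rw [hcast, abs_le]; constructor <;> omega
    · show (if (x, y).2 = 0 then ((x, y).1 + 1, (x, y).2) else (x, y)) ∈ RR P (m + 1)
      simp only
      split_ifs with h
      · refine ⟨?_, ?_, Or.inl h⟩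
        · show |x + 1| ≤ _
          rw [hcast, abs_le]; constructor <;> omega
        · show |y| ≤ _
          rw [hcast, abs_le]; constructor <;> omega
      · refine ⟨?_, ?_, h3⟩
        · show |x| ≤ _
          rw [hcast, abs_le]; constructor <;> omega
        · show |y| ≤ _
          rw [hcast, abs_le]; constructor <;> omega
  · cases b
    · have key : ((tPerm P).symm (x, y)) ∈ RR P (m + 1) := by
        by_cases h : x ∈ P
        · rw [ts_pos P x y h]
          refine ⟨?_, ?_, Or.inr h⟩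
          · show |x| ≤ _
            rw [hcast, abs_le]; constructor <;> omega
          · show |y - 1| ≤ _
            rw [hcast, abs_le]; constructor <;> omega
        · rw [ts_neg P x y h]
          refine ⟨?_, ?_, h3⟩
          · show |x| ≤ _
            rw [hcast, abs_le]; constructor <;> omega
          · show |y| ≤ _
            rw [hcast, abs_le]; constructor <;> omega
      exact key
    · have key : ((tPerm P) (x, y)) ∈ RR P (m + 1) := by
        by_cases h : x ∈ P
        · rw [t_pos P x y h]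
          refine ⟨?_, ?_, Or.inr h⟩
          · show |x| ≤ _
            rw [hcast, abs_le]; constructor <;> omega
          · show |y + 1| ≤ _
            rw [hcast, abs_le]; constructor <;> omega
        · rw [t_neg P x y h]
          refine ⟨?_, ?_, h3⟩
          · show |x| ≤ _
            rw [hcast, abs_le]; constructor <;> omega
          · show |y| ≤ _
            rw [hcast, abs_le]; constructor <;> omega
      exact key

theorem mem_zero (P : Set ℤ) (m : ℕ) : ((0, 0) : ℤ × ℤ) ∈ RR P m :=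
  ⟨by simp, by simp, Or.inl rfl⟩

/-- all lamps of `w` lie in the box of size `|w|` -/
theorem lamps_mem (P : Set ℤ) (w : List Lt) :
    ∀ z ∈ lampsOf (pp P) ((0, 0) : ℤ × ℤ) w, z.1 ∈ RR P w.length := by
  induction w with
  | nil => intro z hz; simp [lampsOf] at hz
  | cons a w ih =>
    intro z hz
    rcases a with ⟨j, b⟩ | f
    · simp only [lampsOf, List.mem_map] at hz
      obtain ⟨z', hz', rfl⟩ := hz
      exact step P w.length j b z'.1 (ih z' hz')
    · simp only [lampsOf, List.mem_cons] at hz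
      rcases hz with rfl | hz
      · exact mem_zero P _
      · exact mono P (by simp) (ih z hz)

theorem mv_coe (P : Set ℤ) (l : ℕ) (p' : Fin 2 → Perm (RR P l))
    (hp : ∀ j (x : RR P l) (h : pp P j x ∈ RR P l), p' j x = ⟨pp P j x, h⟩) (j : Fin 2) (b : Bool)
    (x : RR P l) (h : mv b (pp P j) (x : ℤ × ℤ) ∈ RR P l) :
    ((mv b (p' j) x : RR P l) : ℤ × ℤ) = mv b (pp P j) (x : ℤ × ℤ) := by
  cases b
  · show (((p' j)⁻¹ x : RR P l) : ℤ × ℤ) = (pp P j)⁻¹ (x : ℤ × ℤ)
    have h' : (pp P j)⁻¹ (x : ℤ × ℤ) ∈ RR P l := h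
    have e : pp P j ((⟨(pp P j)⁻¹ (x : ℤ × ℤ), h'⟩ : RR P l) : ℤ × ℤ) = (x : ℤ × ℤ) := by
      show pp P j ((pp P j)⁻¹ (x : ℤ × ℤ)) = (x : ℤ × ℤ)
      exact Equiv.apply_symm_apply (pp P j) _
    have h2 : p' j ⟨(pp P j)⁻¹ (x : ℤ × ℤ), h'⟩ = x := by
      rw [hp j ⟨(pp P j)⁻¹ (x : ℤ × ℤ), h'⟩ (by rw [e]; exact x.2)]
      exact Subtype.ext e
    have h3 : (p' j)⁻¹ x = ⟨(pp P j)⁻¹ (x : ℤ × ℤ), h'⟩ := by
      rw [Perm.inv_eq_iff_eq]
      exact h2.symm
    rw [h3]
  · show ((p' j x : RR P l) : ℤ × ℤ) = pp P j (x : ℤ × ℤ)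
    rw [hp j x h]

end TH1

theorem stH1 : StH1 := by
  intro P l p' x₀ hx₀ hp w
  let _ := Classical.decEq (RR P l)
  show w.length ≤ l → (lampsOf p' x₀ w).map (fun z => ((z.1 : ℤ × ℤ), z.2)) =
    lampsOf (pp P) (0, 0) w
  induction w with
  | nil => intro _; simp [lampsOf]
  | cons a w ih =>
    intro hl
    have hl' : w.length ≤ l := by
      simp only [List.length_cons] at hl
      omega
    have ih' := ih hl'
    rcases a with ⟨j, b⟩ | f
    · simp only [lampsOf, ← ih', List.map_map]
      apply List.map_congr_left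
      intro z hz
      show (((mv b (p' j) z.1 : RR P l) : ℤ × ℤ), z.2) = (mv b (pp P j) (z.1 : ℤ × ℤ), z.2)
      have hmem : ((z.1 : ℤ × ℤ), z.2) ∈ lampsOf (pp P) ((0, 0) : ℤ × ℤ) w := by
        rw [← ih']
        exact List.mem_map.2 ⟨z, hz, rfl⟩
      have h1 := TH1.lamps_mem P w _ hmem
      have h2 := TH1.step P w.length j b _ h1
      rw [TH1.mv_coe P l p' hp j b z.1 (TH1.mono P (by simpa using hl) h2)]
    · simp only [lampsOf, List.map_cons, ih', hx₀]

end Pool.Agent.Helper106.LG
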