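import Pool.Agent.Helper106.LG.Asm

set_option autoImplicit false

namespace Pool.Agent.Helper106.LG

theorem stH2 : StH2 := by
  intro P l
  have hI : ({p : ℤ | |p| ≤ (l : ℤ)}) = Set.Icc (-(l : ℤ)) l := by
    ext p
    simp [abs_le]
  have hIf : ({p : ℤ | |p| ≤ (l : ℤ)}).Finite := by
    rw [hI]
    exact Set.finite_Icc _ _
  have hIc : ({p : ℤ | |p| ≤ (l : ℤ)}).ncard = 2 * l + 1 := by
    rw [hI, Set.ncard_eq_toFinset_card', Set.toFinset_Icc, Int.card_Icc]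
    omega
  have hQf : (P ∩ {p | |p| ≤ (l : ℤ)}).Finite := hIf.subset Set.inter_subset_right
  have hsub : RR P l ⊆ ({p : ℤ | |p| ≤ (l : ℤ)} ×ˢ {(0 : ℤ)}) ∪
      ((P ∩ {p | |p| ≤ (l : ℤ)}) ×ˢ {p : ℤ | |p| ≤ (l : ℤ)}) := by
    rintro ⟨a, b⟩ ⟨h1, h2, h3⟩
    rcases h3 with h3 | h3
    · left
      exact ⟨h1, h3⟩
    · right
      exact ⟨⟨h3, h1⟩, h2⟩
  have hf := (hIf.prod (Set.finite_singleton (0 : ℤ))).union (hQf.prod hIf)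
  refine ⟨hf.subset hsub, ?_⟩
  have h1 := Set.ncard_le_ncard hsub hf
  have h2 := Set.ncard_union_le ({p : ℤ | |p| ≤ (l : ℤ)} ×ˢ {(0 : ℤ)})
    ((P ∩ {p | |p| ≤ (l : ℤ)}) ×ˢ {p : ℤ | |p| ≤ (l : ℤ)})
  rw [Set.ncard_prod, Set.ncard_prod, hIc, Set.ncard_singleton] at h2
  calc (RR P l).ncard ≤ _ := h1.trans h2
    _ = (2 * l + 1) * ((P ∩ {p | |p| ≤ (l : ℤ)}).ncard + 1) := by ring

end Pool.Agent.Helper106.LG
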