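import Pool.Agent.Helper106.LG.Stmts

set_option autoImplicit false

/-! TASK H3: the upper bound for the LEF growth of `GP P`. -/

namespace Pool.Agent.Helper106.LG

open Equiv

namespace TH3

lemma mv_not {G : Type} [Group G] (b : Bool) (q : G) : mv (!b) q = (mv b q)⁻¹ := by
  cases b <;> simp [mv]

lemma lamp_inv {X : Type} [DecidableEq X] (x : X) (f : F) : lamp x f⁻¹ = (lamp x f)⁻¹ := rfl

lemma gen_invL {X M : Type} [DecidableEq X] [Group M] (p : Fin 2 → Perm X) (x₀ : X)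
    (m : Fin 2 → M) (a : Lt) : gen p x₀ m (invL a) = (gen p x₀ m a)⁻¹ := by
  rcases a with ⟨j, b⟩ | f
  · simp only [gen, invL, evP, evM, mv_not, Prod.inv_mk]
  · simp only [gen, invL, evP, evM, lamp_inv, Prod.inv_mk, inv_one]

end TH3

open TH3 in
theorem stH3 (hA : StA) (hC : StC) (hD1 : StD1) (hD2 : StD2) (hE : StE) (hH1 : StH1)
    (hH2 : StH2) : StH3 := by
  intro P n k hk
  classical
  set l : ℕ := 3 * n with hl
  obtain ⟨hfin, hcard⟩ := hH2 P l
  choose q hq using fun j : Fin 2 => hA (ℤ × ℤ) (RR P l) hfin (pp P j)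
  let x₀ : RR P l := ⟨(0, 0), by simp [RR]⟩
  have : Finite (RR P l) := hfin
  obtain ⟨hfs, hcs⟩ := hD2 l
  have := hfs
  let _ : DecidableEq (RR P l) := Classical.decEq _
  have hagree := hC (ℤ × ℤ) (RR P l) _ (pp P) q (0, 0) x₀ (mS l) Subtype.val l
    Subtype.val_injective (hH1 P l q x₀ rfl hq) (hD1 l)
  have hmem : ∀ a : Lt, gP P a ∈ GP P := fun a => Subgroup.subset_closure ⟨a, rfl⟩
  obtain ⟨π, hπ⟩ := hE (GP P)
    (Perm (RR P l × Fin 3) × Matrix.SpecialLinearGroup (Fin 2) (ZMod (3 ^ l + 2)))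
    (SP P) (fun a => ⟨gP P a, hmem a⟩) (fun a => gen q x₀ (mS l) a) n
    (fun x ⟨a, ha⟩ => ⟨a, Subtype.ext ha.symm⟩)
    (fun a => Subtype.ext (gen_invL (pp P) (0, 0) FreeGroup.of a))
    (fun a => gen_invL q x₀ (mS l) a)
    (fun w hw => by
      have h1 : (((w.map (fun a => (⟨gP P a, hmem a⟩ : GP P))).prod : GP P) :
          Perm ((ℤ × ℤ) × Fin 3) × FreeGroup (Fin 2)) = evW (pp P) (0, 0) FreeGroup.of w := by
        rw [SubmonoidClass.coe_list_prod, List.map_map]
        rfl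
      rw [← OneMemClass.coe_eq_one, h1]
      exact hagree w hw)
  refine ⟨_, inferInstance, inferInstance, π, hπ, ?_⟩
  rw [Nat.card_prod, Nat.card_perm, Nat.card_prod]
  refine Nat.mul_le_mul (Nat.factorial_le ?_) hcs
  have h2 : Nat.card (RR P l) ≤ (6 * n + 1) * (k + 1) := by
    have h3 : Nat.card (RR P l) = (RR P l).ncard := rfl
    rw [h3]
    refine hcard.trans ?_
    have h4 : 2 * l + 1 = 6 * n + 1 := by omega
    rw [h4]
    exact Nat.mul_le_mul_left _ (by omega)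
  simp only [Nat.card_eq_fintype_card (α := Fin 3), Fintype.card_fin]
  omega

end Pool.Agent.Helper106.LG
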