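import Pool.Agent.Helper106.LG.Asm

set_option autoImplicit false

/-! TASK I: change of the finite generating set, monotonicity and invariance under isomorphisms. -/

namespace Pool.Agent.Helper106.LG

open Equiv

namespace TI

/-- balls are finite -/
lemma ball_finite {Γ : Type} [Group Γ] {S : Set Γ} (hS : S.Finite) (n : ℕ) : (ball S n).Finite := by
  classical
  have hU : (S ∪ S⁻¹).Finite := hS.union hS.inv
  have : Finite (S ∪ S⁻¹ : Set Γ) := hU
  refine ((List.finite_length_le (S ∪ S⁻¹ : Set Γ) n).image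
    (fun l : List (S ∪ S⁻¹ : Set Γ) => (l.map Subtype.val).prod)).subset ?_
  rintro g ⟨l, h1, h2, rfl⟩
  have h3 : ∀ x ∈ l, x ∈ (S ∪ S⁻¹ : Set Γ) := by
    intro x hx
    rcases h2 x hx with h | h
    · exact Or.inl h
    · exact Or.inr (Set.mem_inv.2 h)
  refine ⟨l.attach.map (fun x => ⟨x.1, h3 x.1 x.2⟩), ?_, ?_⟩
  · simpa using h1
  · show ((l.attach.map (fun x => (⟨x.1, h3 x.1 x.2⟩ : (S ∪ S⁻¹ : Set Γ)))).map
      Subtype.val).prod = l.prod
    rw [List.map_map]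
    congr 1
    exact l.attach_map_subtype_val

/-- the set whose infimum is the growth function -/
def GS {Γ : Type} [Group Γ] (S : Set Γ) (n : ℕ) : Set ℕ :=
  {k : ℕ | ∃ (Q : Type) (_ : Group Q) (_ : Finite Q) (π : Γ → Q),
    Nat.card Q = k ∧ IsLocEmb (ball S n) π}

lemma GS_nonempty {Γ : Type} [Group Γ] (h : IsLEF Γ) {S : Set Γ} (hS : S.Finite) (n : ℕ) :
    (GS S n).Nonempty := by
  obtain ⟨Q, i1, i2, π, h1⟩ := h (ball S n) (ball_finite hS n)
  exact ⟨_, Q, i1, i2, π, rfl, h1⟩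

lemma mono {Γ : Type} [Group Γ] (h : IsLEF Γ) {S : Set Γ} (hS : S.Finite) {m n : ℕ} (hmn : m ≤ n) :
    lefGrowth S m ≤ lefGrowth S n := by
  obtain ⟨Q, i1, i2, π, h1, h2⟩ := Nat.sInf_mem (GS_nonempty h hS n)
  have h3 : Nat.card Q = lefGrowth S n := h1
  rw [← h3]
  exact Nat.sInf_le ⟨Q, i1, i2, π, rfl, h2.mono (ball_mono hmn)⟩

/-- pulling back a local embedding -/
lemma comp {Γ Δ Q : Type} [Group Γ] [Group Δ] [Group Q] (e : Γ ≃* Δ) {B : Set Γ} {B' : Set Δ}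
    (hB : ∀ g ∈ B, e g ∈ B') {π : Δ → Q} (h : IsLocEmb B' π) : IsLocEmb B (fun g => π (e g)) := by
  refine ⟨fun g hg k hk hgk => ?_, fun g hg k hk hgk => ?_⟩
  · have h1 := hB _ hgk
    show π (e (g * k)) = π (e g) * π (e k)
    rw [map_mul] at h1 ⊢
    exact h.1 _ (hB g hg) _ (hB k hk) h1
  · exact e.injective (h.2 (hB g hg) (hB k hk) hgk)

lemma lef_of_equiv {Γ Δ : Type} [Group Γ] [Group Δ] (e : Γ ≃* Δ) (h : IsLEF Γ) : IsLEF Δ := by
  intro B hB
  obtain ⟨Q, i1, i2, π, h1⟩ := h (e.symm '' B) (hB.image _)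
  exact ⟨Q, i1, i2, fun g => π (e.symm g),
    comp (B' := e.symm '' B) e.symm (fun g hg => Set.mem_image_of_mem _ hg) h1⟩

lemma ball_one {Γ : Type} [Group Γ] (S : Set Γ) (n : ℕ) : (1 : Γ) ∈ ball S n :=
  ⟨[], by simp, by simp, rfl⟩

lemma ball_mul {Γ : Type} [Group Γ] {S : Set Γ} {m n : ℕ} {g h : Γ} (hg : g ∈ ball S m)
    (hh : h ∈ ball S n) : g * h ∈ ball S (m + n) := by
  obtain ⟨l, h1, h2, rfl⟩ := hg
  obtain ⟨l', h3, h4, rfl⟩ := hh
  refine ⟨l ++ l', by simp; omega, fun x hx => ?_, by simp⟩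
  rcases List.mem_append.1 hx with h | h
  · exact h2 x h
  · exact h4 x h

lemma ball_inv {Γ : Type} [Group Γ] {S : Set Γ} {n : ℕ} {g : Γ} (hg : g ∈ ball S n) :
    g⁻¹ ∈ ball S n := by
  obtain ⟨l, h1, h2, rfl⟩ := hg
  refine ⟨(l.map (fun x => x⁻¹)).reverse, by simpa using h1, fun x hx => ?_, ?_⟩
  · rw [List.mem_reverse, List.mem_map] at hx
    obtain ⟨y, hy, rfl⟩ := hx
    rcases h2 y hy with h | h
    · exact Or.inr (by simpa using h)
    · exact Or.inl h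
  · rw [List.prod_inv_reverse]

lemma ball_map {Γ Δ : Type} [Group Γ] [Group Δ] (e : Γ ≃* Δ) {S : Set Γ} {T : Set Δ} {c : ℕ}
    (hc : ∀ s ∈ S, e s ∈ ball T c) (l : List Γ) (hl : ∀ x ∈ l, x ∈ S ∨ x⁻¹ ∈ S) :
    e l.prod ∈ ball T (c * l.length) := by
  induction l with
  | nil => simpa using ball_one T 0
  | cons a l ih =>
    rw [List.prod_cons, map_mul, List.length_cons]
    have h1 : e a ∈ ball T c := by
      rcases hl a (by simp) with h | h
      · exact hc a h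
      · have := ball_inv (hc _ h)
        simpa using this
    have h2 := ball_mul h1 (ih fun x hx => hl x (by simp [hx]))
    have h3 : c + c * l.length = c * (l.length + 1) := by ring
    rw [h3] at h2
    exact h2

end TI

/-- TASK I. -/
theorem stI : StI := by
  intro Γ Δ _ _ e hΓ S T hS hT _ hT'
  refine ⟨fun m n hmn => TI.mono hΓ hS hmn, ?_⟩
  have hΔ := TI.lef_of_equiv e hΓ
  choose r hr using fun g : Γ => mem_ball_of_closure hT' (e g)
  obtain ⟨N, hN⟩ : ∃ N, ∀ g ∈ S, r g ≤ N := by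
    obtain ⟨N, hN⟩ := (hS.image r).bddAbove
    exact ⟨N, fun g hg => hN ⟨g, hg, rfl⟩⟩
  refine ⟨N + 1, by omega, fun n => ?_⟩
  have hc : ∀ s ∈ S, e s ∈ ball T (N + 1) := fun s hs =>
    ball_mono ((hN s hs).trans (Nat.le_succ N)) (hr s)
  obtain ⟨Q, i1, i2, π, h1, h2⟩ := Nat.sInf_mem (TI.GS_nonempty hΔ hT ((N + 1) * n))
  have h3 : Nat.card Q = lefGrowth T ((N + 1) * n) := h1
  rw [← h3]
  refine Nat.sInf_le ⟨Q, i1, i2, fun g => π (e g), rfl, TI.comp e (fun g hg => ?_) h2⟩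
  obtain ⟨l, hl1, hl2, rfl⟩ := hg
  exact ball_mono (Nat.mul_le_mul le_rfl hl1) (TI.ball_map e hc l hl2)

end Pool.Agent.Helper106.LG
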