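import Pool.Agent.Helper106.LG.Stmts

set_option autoImplicit false

/-! TASKS J1 and K1. -/

namespace Pool.Agent.Helper106.LG

open Equiv

theorem stJ1 : StJ1 := by
  intro f g hfg N
  obtain ⟨k, hk⟩ := Function.ne_iff.1 hfg
  have hinj : Function.Injective (fun n : ℕ => Encodable.encode ((List.range n).map f)) := by
    intro m n h
    have h1 := Encodable.encode_injective h
    have h2 := congrArg List.length h1
    simpa using h2
  obtain ⟨i, ⟨n, hn, rfl⟩, hi⟩ :=
    ((Set.Ioi_infinite k).image hinj.injOn).exists_gt N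
  refine ⟨_, hi.le, ⟨n, rfl⟩, ?_⟩
  rintro ⟨m, hm⟩
  have h1 : (List.range n).map f = (List.range m).map g := Encodable.encode_injective hm
  have h2 : n = m := by simpa using congrArg List.length h1
  subst h2
  have h3 := List.map_inj_left.1 h1 k (List.mem_range.2 hn)
  exact hk h3

theorem stK1 : StK1 := by
  intro P
  have hS : SP P = (fun x : GP P => (x : Perm ((ℤ × ℤ) × Fin 3) × FreeGroup (Fin 2))) ⁻¹'
      (Set.range (gP P)) := by
    ext x
    constructor
    · rintro ⟨a, ha⟩
      exact ⟨a, ha.symm⟩
    · rintro ⟨a, ha⟩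
      exact ⟨a, ha.symm⟩
  rw [hS]
  refine ⟨(Set.finite_range (gP P)).preimage Subtype.val_injective.injOn, ?_⟩
  exact Subgroup.closure_closure_coe_preimage

end Pool.Agent.Helper106.LG
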