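import Pool.Agent.Helper106.LG.Stmts

set_option autoImplicit false

namespace Pool.Agent.Helper106.LG

theorem TJ2.mono {i j : ℕ} (h : i ≤ j) : DD i ≤ DD j := by
  unfold DD
  exact Nat.pow_le_pow_right (by norm_num) (Nat.pow_le_pow_right (by norm_num) h)

theorem stJ2 : StJ2 := by
  intro g i m hi hig hm
  have hsub : PF g ∩ {p | |p| ≤ (m : ℤ)} ⊆
      ((Finset.Ico (0 : ℤ) ((2 * DD (i - 1) : ℕ) : ℤ) : Finset ℤ) : Set ℤ) := by
    rintro p ⟨⟨j, hj, h1, h2⟩, h3⟩
    have h4 : p ≤ m := (le_abs_self p).trans h3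
    have h5 : DD j < DD (i + 1) := by
      have : (DD j : ℤ) ≤ m := h1.trans h4
      have h6 : DD j ≤ m := by exact_mod_cast this
      omega
    have h6 : j < i + 1 := by
      by_contra hcon
      exact absurd (TJ2.mono (not_lt.1 hcon)) (not_le.2 h5)
    have h7 : j ≠ i := by
      rintro rfl
      exact hig hj
    have h8 : DD j ≤ DD (i - 1) := TJ2.mono (by omega)
    rw [Finset.coe_Ico, Set.mem_Ico]
    have h9 : (DD j : ℤ) ≤ (DD (i - 1) : ℤ) := by exact_mod_cast h8
    constructor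
    · have : (0 : ℤ) ≤ (DD j : ℤ) := Int.natCast_nonneg _
      omega
    · push_cast
      omega
  refine (Set.ncard_le_ncard hsub (Finset.finite_toSet _)).trans ?_
  rw [Set.ncard_coe_finset, Int.card_Ico]
  simp

end Pool.Agent.Helper106.LG
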