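import Pool.Agent.Helper106.LG.Stmts

set_option autoImplicit false

/-! TASK J3: the numerical inequality. -/

namespace Pool.Agent.Helper106.LG

namespace TJ3

lemma DD_succ (i : ℕ) : DD (i + 1) = DD i ^ 4 := by
  unfold DD
  rw [← pow_mul, pow_succ]

lemma le_DD (i : ℕ) : i ≤ DD i := by
  unfold DD
  have h1 : i < 2 ^ i := Nat.lt_two_pow_self
  have h2 : i ≤ 4 ^ i := by
    have : i < 4 ^ i := Nat.lt_pow_self (by norm_num)
    omega
  have h3 : (2:ℕ) ^ i ≤ 2 ^ 4 ^ i := Nat.pow_le_pow_right (by norm_num) h2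
  omega

lemma DD_mono {i j : ℕ} (h : i ≤ j) : DD i ≤ DD j := by
  unfold DD
  exact Nat.pow_le_pow_right (by norm_num) (Nat.pow_le_pow_right (by norm_num) h)

lemma six_le (a : ℕ) (h : 5 ≤ a) : 6 * a ≤ 2 ^ a := by
  induction a, h using Nat.le_induction with
  | base => norm_num
  | succ n hn ih => rw [pow_succ]; omega

end TJ3

open TJ3 in
theorem stJ3 : StJ3 := by
  intro C
  refine ⟨2000 * (C + 1) + 1, by omega, fun i hi => ?_⟩
  obtain ⟨k, rfl⟩ : ∃ k, i = k + 1 := ⟨i - 1, by omega⟩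
  simp only [Nat.add_sub_cancel]
  have hk : 2000 * (C + 1) ≤ k := by omega
  have hE : 2000 * (C + 1) ≤ DD k := hk.trans (le_DD k)
  have h5 : 6 * 4 ^ k ≤ DD k := by
    unfold DD
    refine six_le _ ?_
    have : k < 4 ^ k := Nat.lt_pow_self (by norm_num)
    omega
  have hDk : DD k = 2 ^ 4 ^ k := rfl
  rw [DD_succ (k + 1), DD_succ k]
  generalize hEE : DD k = E at *
  generalize haa : 4 ^ k = a at *
  have hE1 : 1 ≤ E := by omega
  have hC : 2000 * C + 2000 ≤ E := by omega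
  have hE4 : 1 ≤ E ^ 4 := Nat.one_le_pow _ _ hE1
  constructor
  · have h1 : (E ^ 4) ^ 4 = E ^ 4 * E ^ 12 := by ring
    have h2 : E ≤ E ^ 12 := Nat.le_self_pow (by norm_num) E
    rw [h1]
    calc 3 * (C * (20 * E ^ 4)) = E ^ 4 * (60 * C) := by ring
      _ < E ^ 4 * E ^ 12 := Nat.mul_lt_mul_of_pos_left (by omega) (by omega)
  · have hK : 3 * ((6 * (C * (20 * E ^ 4)) + 1) * (2 * E + 1)) ≤ E ^ 6 := by
      calc 3 * ((6 * (C * (20 * E ^ 4)) + 1) * (2 * E + 1))
          ≤ 3 * ((121 * (C + 1) * E ^ 4) * (3 * E)) := by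
            refine Nat.mul_le_mul_left _ (Nat.mul_le_mul ?_ (by omega))
            nlinarith
        _ = (1089 * (C + 1)) * E ^ 5 := by ring
        _ ≤ E * E ^ 5 := Nat.mul_le_mul_right _ (by omega)
        _ = E ^ 6 := by ring
    have hfac : (3 * ((6 * (C * (20 * E ^ 4)) + 1) * (2 * E + 1))).factorial ≤ 2 ^ E ^ 7 := by
      calc (3 * ((6 * (C * (20 * E ^ 4)) + 1) * (2 * E + 1))).factorial
          ≤ (E ^ 6).factorial := Nat.factorial_le hK
        _ ≤ (E ^ 6) ^ (E ^ 6) := Nat.factorial_le_pow _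
        _ = 2 ^ (6 * a * E ^ 6) := by
            rw [hDk, ← pow_mul 2 a 6, ← pow_mul]
            congr 1
            ring
        _ ≤ 2 ^ E ^ 7 := by
            refine Nat.pow_le_pow_right (by norm_num) ?_
            calc 6 * a * E ^ 6 ≤ E * E ^ 6 := Nat.mul_le_mul_right _ h5
              _ = E ^ 7 := by ring
    have hpow : (3 ^ (3 * (C * (20 * E ^ 4))) + 2) ^ 4 ≤ 2 ^ E ^ 5 := by
      calc (3 ^ (3 * (C * (20 * E ^ 4))) + 2) ^ 4
          ≤ (4 ^ (3 * (C * (20 * E ^ 4)) + 1)) ^ 4 := by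
            refine Nat.pow_le_pow_left ?_ _
            have h1 : 3 ^ (3 * (C * (20 * E ^ 4))) ≤ 4 ^ (3 * (C * (20 * E ^ 4))) :=
              Nat.pow_le_pow_left (by norm_num) _
            have h2 : 1 ≤ 4 ^ (3 * (C * (20 * E ^ 4))) := Nat.one_le_pow _ _ (by norm_num)
            generalize 3 * (C * (20 * E ^ 4)) = u at *
            rw [pow_succ]
            omega
        _ = 2 ^ (8 * (3 * (C * (20 * E ^ 4)) + 1)) := by
            rw [show (4:ℕ) = 2 ^ 2 by norm_num, ← pow_mul, ← pow_mul]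
            congr 1
            ring
        _ ≤ 2 ^ E ^ 5 := by
            refine Nat.pow_le_pow_right (by norm_num) ?_
            calc 8 * (3 * (C * (20 * E ^ 4)) + 1) ≤ (488 * (C + 1)) * E ^ 4 := by nlinarith
              _ ≤ E * E ^ 4 := Nat.mul_le_mul_right _ (by omega)
              _ = E ^ 5 := by ring
    calc _ ≤ 2 ^ E ^ 7 * 2 ^ E ^ 5 := Nat.mul_le_mul hfac hpow
      _ = 2 ^ (E ^ 7 + E ^ 5) := by rw [pow_add]
      _ < 2 ^ (E ^ 4 * E ^ 4) := by
          refine Nat.pow_lt_pow_right (by norm_num) ?_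
          have h1 : E ^ 5 ≤ E ^ 7 := Nat.pow_le_pow_right hE1 (by norm_num)
          have h2 : E ^ 4 * E ^ 4 = E * E ^ 7 := by ring
          have h3 : 3 * E ^ 7 ≤ E * E ^ 7 := Nat.mul_le_mul_right _ (by omega)
          have h4 : 1 ≤ E ^ 7 := Nat.one_le_pow _ _ hE1
          omega

end Pool.Agent.Helper106.LG
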