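import Pool.Agent.Helper106.LG.Defs

set_option autoImplicit false

/-! Statements of the tasks. -/

namespace Pool.Agent.Helper106.LG

open Equiv

/-- TASK A: a permutation of `X` induces on a finite subset a permutation which agrees with it wherever
possible. -/
def StA : Prop := ∀ (X : Type) (R : Set X), R.Finite → ∀ q : Perm X,
  ∃ q' : Perm R, ∀ (x : R) (h : q x ∈ R), q' x = ⟨q x, h⟩

/-- TASK B: decomposition of the value of a word as (product of its lamps) times (its free part). -/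
def StB : Prop := ∀ (X M : Type) [DecidableEq X] [Group M] (p : Fin 2 → Perm X) (x₀ : X)
  (m : Fin 2 → M) (w : List Lt),
  (evW p x₀ m w).1 = ((lampsOf p x₀ w).map (fun z => lamp z.1 z.2)).prod *
      up (FreeGroup.lift p (FreeGroup.mk (freeOf w))) ∧
  (evW p x₀ m w).2 = FreeGroup.lift m (FreeGroup.mk (freeOf w)) ∧
  (freeOf w).length ≤ w.length

/-- TASK C: two actions whose lamps agree satisfy the same short relations. -/
def StC : Prop := ∀ (X X' M' : Type) [DecidableEq X] [DecidableEq X'] [Group M']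
  (p : Fin 2 → Perm X) (p' : Fin 2 → Perm X') (x₀ : X) (x₀' : X') (m' : Fin 2 → M') (ι : X' → X)
  (l : ℕ), Function.Injective ι →
  (∀ w : List Lt, w.length ≤ l →
    (lampsOf p' x₀' w).map (fun z => (ι z.1, z.2)) = lampsOf p x₀ w) →
  (∀ v : List (Fin 2 × Bool), v.length ≤ l → FreeGroup.lift m' (FreeGroup.mk v) = 1 →
    (FreeGroup.mk v : FreeGroup (Fin 2)) = 1) →
  ∀ w : List Lt, w.length ≤ l → (evW p x₀ FreeGroup.of w = 1 ↔ evW p' x₀' m' w = 1)

/-- TASK D1: Sanov matrices modulo `3 ^ l + 2` detect free words of length `≤ l`. -/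
def StD1 : Prop := ∀ (l : ℕ) (v : List (Fin 2 × Bool)), v.length ≤ l →
  FreeGroup.lift (mS l) (FreeGroup.mk v) = 1 → (FreeGroup.mk v : FreeGroup (Fin 2)) = 1

/-- TASK D2: the order of `SL₂ (ℤ / (3 ^ l + 2))`. -/
def StD2 : Prop := ∀ l : ℕ, Finite (Matrix.SpecialLinearGroup (Fin 2) (ZMod (3 ^ l + 2))) ∧
  Nat.card (Matrix.SpecialLinearGroup (Fin 2) (ZMod (3 ^ l + 2))) ≤ (3 ^ l + 2) ^ 4

/-- TASK E: from equality of short relations to a local embedding of a ball. -/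
def StE : Prop := ∀ (Γ Q : Type) [Group Γ] [Group Q] (S : Set Γ) (e : Lt → Γ) (e' : Lt → Q) (n : ℕ),
  (∀ x ∈ S, ∃ a, e a = x) → (∀ a, e (invL a) = (e a)⁻¹) → (∀ a, e' (invL a) = (e' a)⁻¹) →
  (∀ w : List Lt, w.length ≤ 3 * n → ((w.map e).prod = 1 ↔ (w.map e').prod = 1)) →
  ∃ π : Γ → Q, IsLocEmb (ball S n) π

/-- TASK F: independent pairs of noncommuting elements force the target of a local embedding to be
large. -/
def StF : Prop := ∀ (Γ Q ι : Type) [Group Γ] [Group Q] [Finite Q] [Fintype ι] (S : Set Γ) (n : ℕ)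
  (a b : ι → Γ) (π : Γ → Q), (∀ i, a i ∈ ball S n) → (∀ i, b i ∈ ball S n) →
  (∀ i j, i ≠ j → a i * a j = a j * a i) → (∀ i j, i ≠ j → a i * b j = b j * a i) →
  (∀ i, a i * b i ≠ b i * a i) → IsLocEmb (ball S (2 * n)) π → 2 ^ Fintype.card ι ≤ Nat.card Q

/-- TASK G: the lower bound for the LEF growth of `GP P` when `P` contains the interval `[D, 2D)`. -/
def StG : Prop := ∀ (P : Set ℤ) (D : ℕ) (Q : Type) [Group Q] [Finite Q] (π : GP P → Q), 0 < D →
  (∀ p : ℤ, (D : ℤ) ≤ p → p < 2 * D → p ∈ P) → IsLocEmb (ball (SP P) (20 * D)) π →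
  2 ^ (D * D) ≤ Nat.card Q

/-- TASK H1: the lamps of short words are the same for the comb and for a finite box of the comb. -/
def StH1 : Prop := ∀ (P : Set ℤ) (l : ℕ) (p' : Fin 2 → Perm (RR P l)) (x₀ : RR P l),
  (x₀ : ℤ × ℤ) = (0, 0) →
  (∀ j (x : RR P l) (h : pp P j x ∈ RR P l), p' j x = ⟨pp P j x, h⟩) →
  ∀ w : List Lt, w.length ≤ l →
    (letI := Classical.decEq (RR P l)
     (lampsOf p' x₀ w).map (fun z => ((z.1 : ℤ × ℤ), z.2))) = lampsOf (pp P) (0, 0) w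

/-- TASK H2: the size of the box. -/
def StH2 : Prop := ∀ (P : Set ℤ) (l : ℕ), (RR P l).Finite ∧
  (RR P l).ncard ≤ (2 * l + 1) * ((P ∩ {p | |p| ≤ (l : ℤ)}).ncard + 1)

/-- TASK H3: the upper bound for the LEF growth of `GP P`. -/
def StH3 : Prop := ∀ (P : Set ℤ) (n k : ℕ), (P ∩ {p | |p| ≤ ((3 * n : ℕ) : ℤ)}).ncard ≤ k →
  ∃ (Q : Type) (_ : Group Q) (_ : Finite Q) (π : GP P → Q), IsLocEmb (ball (SP P) n) π ∧
    Nat.card Q ≤ (3 * ((6 * n + 1) * (k + 1))).factorial * (3 ^ (3 * n) + 2) ^ 4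

/-- TASK I: change of the finite generating set, monotonicity and invariance under isomorphisms. -/
def StI : Prop := ∀ (Γ Δ : Type) [Group Γ] [Group Δ] (_e : Γ ≃* Δ), IsLEF Γ →
  ∀ (S : Set Γ) (T : Set Δ), S.Finite → T.Finite → Subgroup.closure S = ⊤ →
  Subgroup.closure T = ⊤ →
  (∀ m n : ℕ, m ≤ n → lefGrowth S m ≤ lefGrowth S n) ∧
  ∃ c : ℕ, 1 ≤ c ∧ ∀ n : ℕ, lefGrowth S n ≤ lefGrowth T (c * n)

/-- TASK J1: the sets of codes are almost disjoint. -/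
def StJ1 : Prop := ∀ f g : ℕ → Bool, f ≠ g → ∀ N : ℕ, ∃ i, N ≤ i ∧ i ∈ AA f ∧ i ∉ AA g

/-- TASK J2: the number of columns below the scale `i + 1` if the scale `i` is not used. -/
def StJ2 : Prop := ∀ (g : ℕ → Bool) (i m : ℕ), 1 ≤ i → i ∉ AA g → m < DD (i + 1) →
  (PF g ∩ {p | |p| ≤ (m : ℤ)}).ncard ≤ 2 * DD (i - 1)

/-- TASK J3: the numerical inequality. -/
def StJ3 : Prop := ∀ C : ℕ, ∃ N : ℕ, 1 ≤ N ∧ ∀ i : ℕ, N ≤ i →
  3 * (C * (20 * DD i)) < DD (i + 1) ∧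
  (3 * ((6 * (C * (20 * DD i)) + 1) * (2 * DD (i - 1) + 1))).factorial *
    (3 ^ (3 * (C * (20 * DD i))) + 2) ^ 4 < 2 ^ (DD i * DD i)

/-- TASK K1: `GP P` is generated by the finite set `SP P`. -/
def StK1 : Prop := ∀ P : Set ℤ, (SP P).Finite ∧ Subgroup.closure (SP P) = ⊤

/-- TASK K2: the main result. -/
def Main : Prop := ∃ (G : (ℕ → Bool) → Type) (_ : ∀ f, Group (G f)),
  (∀ f, Group.FG (G f)) ∧ (∀ f, IsLEF (G f)) ∧
  ∀ f g, f ≠ g → IsEmpty (G f ≃* G g) ∧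
    ∀ (S : Set (G f)) (T : Set (G g)), S.Finite → Subgroup.closure S = ⊤ → T.Finite →
      Subgroup.closure T = ⊤ → ¬ Dom (lefGrowth S) (lefGrowth T)

end Pool.Agent.Helper106.LG
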