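import Pool.Agent.Helper106.LG.Stmts

set_option autoImplicit false

namespace Pool.Agent.Helper106.LG

open Equiv

theorem stA : StA := by
  classical
  intro X R hR q
  have : Finite R := hR
  have : Fintype R := Fintype.ofFinite R
  let e : {x : R // q x ∈ R} ≃ {y : R // q.symm y ∈ R} :=
    { toFun := fun x => ⟨⟨q x.1, x.2⟩, by simp [x.1.2]⟩
      invFun := fun y => ⟨⟨q.symm y.1, y.2⟩, by simp [y.1.2]⟩
      left_inv := fun x => by simp
      right_inv := fun y => by simp }
  refine ⟨e.extendSubtype, fun x h => ?_⟩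
  rw [Equiv.extendSubtype_apply_of_mem e x h]
  rfl

end Pool.Agent.Helper106.LG
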