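import Pool.Agent.Helper106.LG.Stmts

set_option autoImplicit false

/-! TASK B: decomposition of the value of a word. -/

namespace Pool.Agent.Helper106.LG

open Equiv

namespace TB

theorem up_mul {X : Type} (q r : Perm X) : up (q * r) = up q * up r := by
  ext z <;> simp [up]

theorem up_one {X : Type} : up (1 : Perm X) = 1 := by
  ext z <;> simp [up]

theorem up_inv {X : Type} (q : Perm X) : up q⁻¹ = (up q)⁻¹ := by
  rw [eq_inv_iff_mul_eq_one, ← up_mul, inv_mul_cancel, up_one]

theorem up_mv {X : Type} (b : Bool) (q : Perm X) : up (mv b q) = mv b (up q) := by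
  cases b <;> simp [mv, up_inv]

theorem up_lamp {X : Type} [DecidableEq X] (q : Perm X) (x : X) (f : F) :
    up q * lamp x f = lamp (q x) f * up q := by
  ext z
  · simp only [Perm.mul_apply, up, lamp, Equiv.coe_fn_mk, Equiv.prodCongr_apply, Prod.map]
    by_cases h : z.1 = x <;> simp [h]
  · simp only [Perm.mul_apply, up, lamp, Equiv.coe_fn_mk, Equiv.prodCongr_apply, Prod.map]
    by_cases h : z.1 = x <;> simp [h]

theorem up_prod {X : Type} [DecidableEq X] (q : Perm X) (L : List (X × F)) :
    up q * (L.map (fun z => lamp z.1 z.2)).prod =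
      ((L.map (fun z => (q z.1, z.2))).map (fun z => lamp z.1 z.2)).prod * up q := by
  induction L with
  | nil => simp
  | cons z L ih =>
    simp only [List.map_cons, List.prod_cons]
    rw [← mul_assoc, up_lamp, mul_assoc, ih, mul_assoc]

theorem lift_cons {G : Type} [Group G] (p : Fin 2 → G) (j : Fin 2) (b : Bool)
    (v : List (Fin 2 × Bool)) :
    FreeGroup.lift p (FreeGroup.mk ((j, b) :: v)) = mv b (p j) * FreeGroup.lift p (FreeGroup.mk v) := by
  rw [FreeGroup.lift_mk, FreeGroup.lift_mk, List.map_cons, List.prod_cons]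
  cases b <;> simp [mv]

end TB

open TB in
theorem stB : StB := by
  intro X M _ _ p x₀ m w
  induction w with
  | nil =>
    refine ⟨?_, ?_, le_refl _⟩
    · simp [evW, lampsOf, freeOf, ← FreeGroup.one_eq_mk, up_one]
    · simp [evW, freeOf, ← FreeGroup.one_eq_mk]
  | cons a w ih =>
    obtain ⟨h1, h2, h3⟩ := ih
    have hev : evW p x₀ m (a :: w) = gen p x₀ m a * evW p x₀ m w := by
      simp [evW]
    rcases a with ⟨j, b⟩ | f
    · refine ⟨?_, ?_, ?_⟩
      · rw [hev, Prod.fst_mul, h1]
        change mv b (up (p j)) * _ = _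
        rw [← up_mv, ← mul_assoc, up_prod, mul_assoc, ← up_mul, lampsOf, freeOf, lift_cons]
      · rw [hev, Prod.snd_mul, h2]
        change mv b (m j) * _ = _
        rw [freeOf, lift_cons]
      · simp only [freeOf, List.length_cons]; omega
    · refine ⟨?_, ?_, ?_⟩
      · rw [hev, Prod.fst_mul, h1]
        change lamp x₀ f * _ = _
        rw [lampsOf, freeOf, List.map_cons, List.prod_cons, mul_assoc]
      · rw [hev, Prod.snd_mul, h2]
        change 1 * _ = _
        rw [freeOf, one_mul]
      · simp only [freeOf, List.length_cons]; omega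

end Pool.Agent.Helper106.LG
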