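import Pool.Agent.Helper106.LG.Stmts

set_option autoImplicit false

/-! TASK E: from equality of short relations to a local embedding of a ball. -/

namespace Pool.Agent.Helper106.LG

namespace TE

/-- the inverse word -/
def invW (w : List Lt) : List Lt := (w.map invL).reverse

theorem invW_length (w : List Lt) : (invW w).length = w.length := by simp [invW]

theorem invW_prod {G : Type} [Group G] (e : Lt → G) (he : ∀ a, e (invL a) = (e a)⁻¹) (w : List Lt) :
    ((invW w).map e).prod = ((w.map e).prod)⁻¹ := by
  rw [List.prod_inv_reverse, invW, List.map_reverse, List.map_map, List.map_map]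
  congr 2
  apply List.map_congr_left
  intro a _
  simp [he]

theorem exists_word {G : Type} [Group G] (S : Set G) (e : Lt → G) (hS : ∀ x ∈ S, ∃ a, e a = x)
    (he : ∀ a, e (invL a) = (e a)⁻¹) (l : List G) (hl : ∀ x ∈ l, x ∈ S ∨ x⁻¹ ∈ S) :
    ∃ w : List Lt, w.map e = l := by
  induction l with
  | nil => exact ⟨[], rfl⟩
  | cons x l ih =>
    obtain ⟨w, hw⟩ := ih (fun y hy => hl y (List.mem_cons_of_mem _ hy))
    have hx : ∃ a, e a = x := by
      rcases hl x List.mem_cons_self with h | h
      · exact hS x h
      · obtain ⟨a, ha⟩ := hS _ h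
        exact ⟨invL a, by rw [he, ha, inv_inv]⟩
    obtain ⟨a, ha⟩ := hx
    exact ⟨a :: w, by simp [ha, hw]⟩

theorem exists_word_ball {G : Type} [Group G] (S : Set G) (e : Lt → G)
    (hS : ∀ x ∈ S, ∃ a, e a = x) (he : ∀ a, e (invL a) = (e a)⁻¹) (n : ℕ) (g : G)
    (hg : g ∈ ball S n) : ∃ w : List Lt, w.length ≤ n ∧ (w.map e).prod = g := by
  obtain ⟨l, hl, hlS, hp⟩ := hg
  obtain ⟨w, hw⟩ := exists_word S e hS he l hlS
  refine ⟨w, ?_, by rw [hw, hp]⟩
  rw [← hw, List.length_map] at hl
  exact hl

end TE

open TE in
theorem stE : StE := by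
  intro Γ Q _ _ S e e' n hS he he' h
  classical
  have hex := exists_word_ball S e hS he n
  choose! W hWl hWp using hex
  refine ⟨fun g => ((W g).map e').prod, ?_, ?_⟩
  · intro g hg k hk hgk
    have key : (((W g ++ W k) ++ invW (W (g * k))).map e').prod = 1 := by
      refine (h _ ?_).1 ?_
      · have h1 := hWl g hg
        have h2 := hWl k hk
        have h3 := hWl _ hgk
        simp only [List.length_append, invW_length]
        omega
      · rw [List.map_append, List.map_append, List.prod_append, List.prod_append, invW_prod e he,
          hWp g hg, hWp k hk, hWp _ hgk, mul_inv_cancel]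
    rw [List.map_append, List.map_append, List.prod_append, List.prod_append, invW_prod e' he'] at key
    exact (mul_inv_eq_one.1 key).symm
  · intro g hg k hk hgk
    have hgk' : ((W g).map e').prod = ((W k).map e').prod := hgk
    have key : ((W g ++ invW (W k)).map e).prod = 1 := by
      refine (h _ ?_).2 ?_
      · have h1 := hWl g hg
        have h2 := hWl k hk
        simp only [List.length_append, invW_length]
        omega
      · rw [List.map_append, List.prod_append, invW_prod e' he', hgk', mul_inv_cancel]
    rw [List.map_append, List.prod_append, invW_prod e he, hWp g hg, hWp k hk] at key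
    exact mul_inv_eq_one.1 key

end Pool.Agent.Helper106.LG
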