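import Pool.Agent.Helper106.LG.Stmts

set_option autoImplicit false

namespace Pool.Agent.Helper106.LG

open Equiv

namespace TI

theorem ball_mono {Γ : Type} [Group Γ] (S : Set Γ) {m n : ℕ} (h : m ≤ n) : ball S m ⊆ ball S n := by
  rintro g ⟨l, hl, h1, h2⟩
  exact ⟨l, hl.trans h, h1, h2⟩

theorem ball_mul {Γ : Type} [Group Γ] (S : Set Γ) {m n : ℕ} {a b : Γ} (ha : a ∈ ball S m)
    (hb : b ∈ ball S n) : a * b ∈ ball S (m + n) := by
  obtain ⟨l, hl, h1, rfl⟩ := ha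
  obtain ⟨l', hl', h1', rfl⟩ := hb
  refine ⟨l ++ l', by simp; omega, fun x hx => ?_, by simp⟩
  rcases List.mem_append.1 hx with h | h
  · exact h1 x h
  · exact h1' x h

theorem ball_inv {Γ : Type} [Group Γ] (S : Set Γ) {m : ℕ} {a : Γ} (ha : a ∈ ball S m) :
    a⁻¹ ∈ ball S m := by
  obtain ⟨l, hl, h1, rfl⟩ := ha
  refine ⟨(l.map (·⁻¹)).reverse, by simpa using hl, fun x hx => ?_, ?_⟩
  · rw [List.mem_reverse, List.mem_map] at hx
    obtain ⟨y, hy, rfl⟩ := hx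
    rw [inv_inv]
    exact (h1 y hy).symm
  · rw [List.prod_inv_reverse]

theorem ball_one {Γ : Type} [Group Γ] (S : Set Γ) (m : ℕ) : (1 : Γ) ∈ ball S m :=
  ⟨[], by simp, by simp, by simp⟩

theorem ball_finite {Γ : Type} [Group Γ] (S : Set Γ) (hS : S.Finite) (n : ℕ) :
    (ball S n).Finite := by
  have h1 : (S ∪ S⁻¹ : Set Γ).Finite := hS.union hS.inv
  have h2 : {l : List Γ | (∀ x ∈ l, x ∈ (S ∪ S⁻¹ : Set Γ)) ∧ l.length ≤ n}.Finite := by
    have := h1.to_subtype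
    have h3 : {l : List (S ∪ S⁻¹ : Set Γ) | l.length ≤ n}.Finite := List.finite_length_le _ n
    refine (h3.image (List.map Subtype.val)).subset ?_
    rintro l ⟨hl, hn⟩
    refine ⟨l.pmap (fun a h => ⟨a, h⟩) hl, by simpa using hn, ?_⟩
    simp [List.map_pmap]
  refine (h2.image List.prod).subset ?_
  rintro g ⟨l, hl, h3, rfl⟩
  exact ⟨l, ⟨fun x hx => by
    rcases h3 x hx with h | h
    · exact Or.inl h
    · exact Or.inr (by simpa using h), hl⟩, rfl⟩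

/-- every element is in a ball -/
theorem exists_ball {Γ : Type} [Group Γ] (S : Set Γ) (hS : Subgroup.closure S = ⊤) (g : Γ) :
    ∃ n, g ∈ ball S n := by
  have hg : g ∈ Subgroup.closure S := by rw [hS]; trivial
  refine Subgroup.closure_induction (p := fun g _ => ∃ n, g ∈ ball S n) ?_ ?_ ?_ ?_ hg
  · intro x hx
    exact ⟨1, [x], by simp, by simp [hx], by simp⟩
  · exact ⟨0, ball_one S 0⟩
  · rintro x y _ _ ⟨n, hn⟩ ⟨m, hm⟩
    exact ⟨n + m, ball_mul S hn hm⟩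
  · rintro x _ ⟨n, hn⟩
    exact ⟨n, ball_inv S hn⟩

/-- a common ball for the elements of a finite set -/
theorem exists_ball_finite {Γ : Type} [Group Γ] (S : Set Γ) (hS : Subgroup.closure S = ⊤)
    (A : Set Γ) (hA : A.Finite) : ∃ c, 1 ≤ c ∧ A ⊆ ball S c := by
  induction A, hA using Set.Finite.induction_on with
  | empty => exact ⟨1, le_rfl, by simp⟩
  | @insert a s _ _ ih =>
    obtain ⟨c, hc, hs⟩ := ih
    obtain ⟨n, hn⟩ := exists_ball S hS a
    refine ⟨c + n, by omega, ?_⟩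
    rw [Set.insert_subset_iff]
    exact ⟨ball_mono S (by omega) hn, hs.trans (ball_mono S (by omega))⟩

theorem locEmb_mono {Γ Q : Type} [Group Γ] [Group Q] {B B' : Set Γ} (h : B ⊆ B') {π : Γ → Q}
    (hπ : IsLocEmb B' π) : IsLocEmb B π :=
  ⟨fun g hg k hk hgk => hπ.1 g (h hg) k (h hk) (h hgk), hπ.2.mono h⟩

theorem ball_sub {Γ Δ : Type} [Group Γ] [Group Δ] (e : Γ ≃* Δ) (S : Set Γ) (T : Set Δ) (c : ℕ)
    (h : e '' S ⊆ ball T c) (n : ℕ) (g : Γ) (hg : g ∈ ball S n) : e g ∈ ball T (c * n) := by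
  obtain ⟨l, hl, h1, rfl⟩ := hg
  refine ball_mono T (Nat.mul_le_mul_left c hl) ?_
  clear hl
  induction l with
  | nil => simpa using ball_one T 0
  | cons x l ih =>
    rw [List.prod_cons, map_mul, List.length_cons, Nat.mul_succ, add_comm]
    refine ball_mul T ?_ (ih fun y hy => h1 y (List.mem_cons_of_mem _ hy))
    rcases h1 x List.mem_cons_self with h2 | h2
    · exact h ⟨x, h2, rfl⟩
    · have h3 := ball_inv T (h ⟨x⁻¹, h2, rfl⟩)
      rwa [map_inv, inv_inv] at h3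

/-- the set of the orders of the targets of local embeddings -/
def ords {Γ : Type} [Group Γ] (S : Set Γ) (n : ℕ) : Set ℕ :=
  {k : ℕ | ∃ (Q : Type) (_ : Group Q) (_ : Finite Q) (π : Γ → Q),
    Nat.card Q = k ∧ IsLocEmb (ball S n) π}

theorem ords_ne {Γ : Type} [Group Γ] (h : IsLEF Γ) (S : Set Γ) (hS : S.Finite) (n : ℕ) :
    (ords S n).Nonempty := by
  obtain ⟨Q, hQ, hQ', π, hπ⟩ := h (ball S n) (ball_finite S hS n)
  exact ⟨Nat.card Q, Q, hQ, hQ', π, rfl, hπ⟩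

theorem lef_iso {Γ Δ : Type} [Group Γ] [Group Δ] (e : Γ ≃* Δ) (h : IsLEF Γ) : IsLEF Δ := by
  intro B hB
  obtain ⟨Q, hQ, hQ', π, h1, h2⟩ := h (e.symm '' B) (hB.image _)
  refine ⟨Q, hQ, hQ', fun x => π (e.symm x), fun g hg k hk hgk => ?_, ?_⟩
  · show π (e.symm (g * k)) = π (e.symm g) * π (e.symm k)
    rw [map_mul]
    exact h1 _ ⟨g, hg, rfl⟩ _ ⟨k, hk, rfl⟩ ⟨g * k, hgk, map_mul _ _ _⟩
  · intro x hx y hy hxy
    exact e.symm.injective (h2 ⟨x, hx, rfl⟩ ⟨y, hy, rfl⟩ hxy)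

end TI

theorem stI : StI := by
  intro Γ Δ _ _ e hΓ S T hS hT hS1 hT1
  refine ⟨fun m n hmn => ?_, ?_⟩
  · have h1 := Nat.sInf_mem (TI.ords_ne hΓ S hS n)
    obtain ⟨Q, hQ, hQ', π, hc, hπ⟩ := h1
    show sInf (TI.ords S m) ≤ sInf (TI.ords S n)
    exact Nat.sInf_le ⟨Q, hQ, hQ', π, hc, TI.locEmb_mono (TI.ball_mono S hmn) hπ⟩
  · obtain ⟨c, hc, hsub⟩ := TI.exists_ball_finite T hT1 (e '' S) (hS.image _)
    refine ⟨c, hc, fun n => ?_⟩
    have h1 := Nat.sInf_mem (TI.ords_ne (TI.lef_iso e hΓ) T hT (c * n))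
    obtain ⟨Q, hQ, hQ', π, hcard, h2, h3⟩ := h1
    show sInf (TI.ords S n) ≤ sInf (TI.ords T (c * n))
    have h4 := TI.ball_sub e S T c hsub n
    refine Nat.sInf_le ⟨Q, hQ, hQ', fun x => π (e x), hcard, fun g hg k hk hgk => ?_, ?_⟩
    · show π (e (g * k)) = π (e g) * π (e k)
      rw [map_mul]
      exact h2 _ (h4 g hg) _ (h4 k hk) (by rw [← map_mul]; exact h4 _ hgk)
    · intro x hx y hy hxy
      exact e.injective (h3 (h4 x hx) (h4 y hy) hxy)

end Pool.Agent.Helper106.LG
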